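import Pool.Agent.Lib.MP_695abf_an.Wick

set_option autoImplicit false

open scoped NNRat

namespace Pool.Agent.Lib.MP_695abf_an

/-- The monoid of monomials. -/
abbrev Mon (ι : Type) : Type := ℚ≥0 × (ι →₀ ℤ)

/-- A scalar multiple of a monomial times a linear form. -/
structure Atom (ι : Type) where
  /-- scalar -/
  c : ℂ
  /-- monomial -/
  m : Mon ι
  /-- form -/
  f : Form ι

variable {ι : Type} [DecidableEq ι] {𝒜 : Type} [CommRing 𝒜] [Algebra ℂ 𝒜]

/-- Group elements. -/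
def gel (μ : Mon ι → 𝒜) (g : ι →₀ ℤ) : 𝒜 := μ (0, g)

/-- Value of an atom. -/
noncomputable def aval (μ : Mon ι → 𝒜) (b : Atom ι) : 𝒜 := b.c • (μ b.m * fval (gel μ) b.f)

/-- Contraction of two atoms. -/
noncomputable def con (μ : Mon ι → 𝒜) (b0 b : Atom ι) : 𝒜 :=
  (b0.c * b.c * pairing b0.f b.f) • μ (b0.m + b.m)

/-- Value of a pair of atoms. -/
noncomputable def pval (μ : Mon ι → 𝒜) (p : Atom ι × Atom ι) : 𝒜 := aval μ p.1 + aval μ p.2

/-- Size condition on an atom. -/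
def AOk (α : ℝ) (b : Atom ι) : Prop := ‖b.c‖ ≤ α ∧ nrm b.f.1 ≤ 1 ∧ b.f.2 ≠ 0

/-- A combination of monomials with small coefficients. -/
def Small (μ : Mon ι → 𝒜) (ε : ℝ) (w : 𝒜) : Prop :=
  ∀ (Λ : 𝒜 →ₗ[ℂ] ℂ) (B : ℝ), 0 ≤ B → (∀ m, ‖Λ (μ m)‖ ≤ B) → ‖Λ w‖ ≤ ε * B

omit [DecidableEq ι] in
theorem Small.add {μ : Mon ι → 𝒜} {ε ε' : ℝ} {w w' : 𝒜} (h : Small μ ε w) (h' : Small μ ε' w') :
    Small μ (ε + ε') (w + w') := by
  intro Λ B hB hm
  rw [map_add, add_mul]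
  exact (norm_add_le _ _).trans (add_le_add (h Λ B hB hm) (h' Λ B hB hm))

omit [DecidableEq ι] in
theorem small_smul (μ : Mon ι → 𝒜) {ε : ℝ} {c : ℂ} (hc : ‖c‖ ≤ ε) (m : Mon ι) :
    Small μ ε (c • μ m) := by
  intro Λ B hB hm
  rw [map_smul, norm_smul]
  exact mul_le_mul hc (hm m) (norm_nonneg _) ((norm_nonneg _).trans hc)

omit [DecidableEq ι] in
theorem small_zero (μ : Mon ι → 𝒜) {ε : ℝ} (hε : 0 ≤ ε) : Small μ ε (0 : 𝒜) := by
  intro Λ B hB _
  rw [map_zero, norm_zero]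
  positivity

omit [DecidableEq ι] in
theorem norm_cprod_le {α : ℝ} (hα : 1 ≤ α) (K : ℕ) (La : List (Atom ι)) (h : ∀ b ∈ La, AOk α b)
    (hK : La.length ≤ K) : ‖(La.map Atom.c).prod‖ ≤ α ^ K := by
  refine le_trans ?_ (pow_le_pow_right₀ hα hK)
  clear hK
  induction La with
  | nil => simp
  | cons b L ih =>
    simp only [List.map_cons, List.prod_cons, norm_mul, List.length_cons, pow_succ']
    exact mul_le_mul (h b (by simp)).1 (ih fun b' hb' => h b' (by simp [hb'])) (norm_nonneg _)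
      (by linarith)

omit [DecidableEq ι] in
theorem good_of_aok {α : ℝ} {La : List (Atom ι)} (h : ∀ b ∈ La, AOk α b) :
    Good (La.map Atom.f) := by
  intro f hf
  obtain ⟨b, hb, rfl⟩ := List.mem_map.mp hf
  exact (h b hb).2

variable {μ : Mon ι → 𝒜} (hμ : ∀ m m', μ (m + m') = μ m * μ m')
include hμ

omit [DecidableEq ι] [Algebra ℂ 𝒜] in
theorem gel_add (g g' : ι →₀ ℤ) : gel μ (g + g') = gel μ g * gel μ g' := by
  unfold gel
  rw [← hμ]
  simp

omit [DecidableEq ι] [Algebra ℂ 𝒜] in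
theorem mon_split (m : Mon ι) : μ m = μ (m.1, 0) * gel μ m.2 := by
  unfold gel
  rw [← hμ]
  simp

omit [DecidableEq ι] in
theorem atoms_prod (La : List (Atom ι)) : ∀ m : Mon ι, μ m * pr (aval μ) La =
    (La.map Atom.c).prod • (μ (m + (La.map Atom.m).sum) * pr (fval (gel μ)) (La.map Atom.f)) := by
  induction La with
  | nil => intro m; simp
  | cons b L ih =>
    intro m
    have := ih (m + b.m)
    simp only [List.map_cons, List.prod_cons, List.sum_cons, pr_cons, ← add_assoc]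
    have e : μ m * (aval μ b * pr (aval μ) L) =
        b.c • (fval (gel μ) b.f * (μ (m + b.m) * pr (aval μ) L)) := by
      unfold aval
      rw [hμ]
      simp only [Algebra.smul_def]
      ring
    rw [e, this]
    simp only [Algebra.smul_def, map_mul]
    ring

omit [DecidableEq ι] in
theorem atoms_der (b0 : Atom ι) (La : List (Atom ι)) : ∀ m : Mon ι,
    μ m * der (aval μ) (con μ b0) La =
    (b0.c * (La.map Atom.c).prod) • (μ (m + b0.m + (La.map Atom.m).sum) *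
      der (fval (gel μ)) (fun f' => algebraMap ℂ 𝒜 (pairing b0.f f')) (La.map Atom.f)) := by
  induction La with
  | nil => intro m; simp
  | cons b L ih =>
    intro m
    have h1 := ih (m + b.m)
    have h2 := atoms_prod hμ L (m + b0.m + b.m)
    simp only [List.map_cons, List.prod_cons, List.sum_cons, der_cons, ← add_assoc]
    have e : μ m * (con μ b0 b * pr (aval μ) L + aval μ b * der (aval μ) (con μ b0) L) =
        (b0.c * b.c * pairing b0.f b.f) • (μ (m + b0.m + b.m) * pr (aval μ) L) +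
        b.c • (fval (gel μ) b.f * (μ (m + b.m) * der (aval μ) (con μ b0) L)) := by
      unfold aval con
      simp only [hμ, Algebra.smul_def]
      ring
    rw [e, h1, h2, add_right_comm m b.m b0.m]
    simp only [Algebra.smul_def, map_mul]
    ring

variable (Λ : 𝒜 →ₗ[ℂ] ℂ) (h0 : ∀ m : Mon ι, m.2 ≠ 0 → Λ (μ m) = 0) (h1 : ∀ m, ‖Λ (μ m)‖ ≤ 1)
include h0 h1

theorem atoms_bound {α : ℝ} (hα : 1 ≤ α) (K : ℕ) (m : Mon ι) (La : List (Atom ι))
    (h : ∀ b ∈ La, AOk α b) (hK : La.length ≤ K) :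
    ‖Λ (μ m * pr (aval μ) La)‖ ≤ α ^ K * (2 * K + 1) ^ K := by
  rw [atoms_prod hμ, map_smul, norm_smul]
  set m' := m + (La.map Atom.m).sum
  have := wick_bound (gel_add hμ) (Λ.comp (LinearMap.mulLeft ℂ (μ (m'.1, 0))))
    (fun g hg => by
      have := h0 (m'.1, g) hg
      rw [mon_split hμ] at this
      simpa using this)
    (fun g => by
      have := h1 (m'.1, g)
      rw [mon_split hμ] at this
      simpa using this) K m'.2 (La.map Atom.f) (good_of_aok h) (by simpa using hK)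
  simp only [LinearMap.comp_apply, LinearMap.mulLeft_apply, ← mul_assoc, ← mon_split hμ] at this
  exact mul_le_mul (norm_cprod_le hα K La h hK) this (norm_nonneg _) (by positivity)

theorem atoms_ibp {α : ℝ} (hα : 1 ≤ α) (K : ℕ) (m : Mon ι) (b0 : Atom ι) (hb0 : AOk α b0)
    (θ : ℝ) (hθ0 : 0 ≤ θ) (hθ : ∀ i, ‖b0.f.1 i‖ ≤ θ) (La : List (Atom ι))
    (h : ∀ b ∈ La, AOk α b) (hK : La.length ≤ K) :
    ‖Λ (μ m * (aval μ b0 * pr (aval μ) La)) - Λ (μ m * der (aval μ) (con μ b0) La)‖ ≤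
      α ^ (K + 1) * (2 * (K + 1) ^ 2 * (2 * K + 1) ^ K * θ) := by
  rw [← pr_cons, atoms_prod hμ, atoms_der hμ]
  simp only [List.map_cons, List.prod_cons, List.sum_cons, pr_cons, ← add_assoc]
  rw [map_smul, map_smul, ← smul_sub, norm_smul]
  set m' := m + b0.m + (La.map Atom.m).sum
  have := ibp (gel_add hμ) (Λ.comp (LinearMap.mulLeft ℂ (μ (m'.1, 0))))
    (fun g hg => by
      have := h0 (m'.1, g) hg
      rw [mon_split hμ] at this
      simpa using this)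
    (fun g => by
      have := h1 (m'.1, g)
      rw [mon_split hμ] at this
      simpa using this) K m'.2 b0.f hb0.2.2 θ hθ0 hθ (La.map Atom.f) (good_of_aok h)
      (by simpa using hK)
  simp only [LinearMap.comp_apply, LinearMap.mulLeft_apply, ← mul_assoc, ← mon_split hμ] at this
  simp only [← mul_assoc]
  have hc : ‖b0.c * (La.map Atom.c).prod‖ ≤ α ^ (K + 1) := by
    have := norm_cprod_le hα (K + 1) (b0 :: La) (by
      intro b hb
      rcases List.mem_cons.mp hb with rfl | hb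
      · exact hb0
      · exact h b hb) (by simpa using hK)
    simpa using this
  refine (mul_le_mul hc this (norm_nonneg _) (by positivity)).trans (le_of_eq ?_)
  ring

theorem pairs_bound {α : ℝ} (hα : 1 ≤ α) (K : ℕ) (m : Mon ι) (Ls : List (Atom ι × Atom ι))
    (h : ∀ p ∈ Ls, AOk α p.1 ∧ AOk α p.2) (hK : Ls.length ≤ K) :
    ‖Λ (μ m * pr (pval μ) Ls)‖ ≤ 2 ^ K * (α ^ K * (2 * K + 1) ^ K) := by
  have := choice_bound (aval μ) (AOk α) Ls (Λ.comp (LinearMap.mulLeft ℂ (μ m))).toAddMonoidHom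
    (α ^ K * (2 * K + 1) ^ K) h (fun La hl hLa => by
      simpa using atoms_bound hμ Λ h0 h1 hα K m La hLa (by omega))
  refine le_trans this (mul_le_mul_of_nonneg_right (pow_le_pow_right₀ (by norm_num) hK) ?_)
  positivity

theorem pairs_ibp {α : ℝ} (hα : 1 ≤ α) (K : ℕ) (m : Mon ι) (b0 : Atom ι) (hb0 : AOk α b0)
    (θ : ℝ) (hθ0 : 0 ≤ θ) (hθ : ∀ i, ‖b0.f.1 i‖ ≤ θ) (Ls : List (Atom ι × Atom ι))
    (h : ∀ p ∈ Ls, AOk α p.1 ∧ AOk α p.2) (hK : Ls.length ≤ K) :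
    ‖Λ (μ m * (aval μ b0 * pr (pval μ) Ls)) -
      Λ (μ m * der (pval μ) (fun p => con μ b0 p.1 + con μ b0 p.2) Ls)‖ ≤
      2 ^ K * (α ^ (K + 1) * (2 * (K + 1) ^ 2 * (2 * K + 1) ^ K * θ)) := by
  have := choice_der (aval μ) (con μ b0) (AOk α) Ls
    (Λ.comp (LinearMap.mulLeft ℂ (μ m * aval μ b0))).toAddMonoidHom
    (Λ.comp (LinearMap.mulLeft ℂ (μ m))).toAddMonoidHom
    (α ^ (K + 1) * (2 * (K + 1) ^ 2 * (2 * K + 1) ^ K * θ)) h (fun La hl hLa => by
      simpa [mul_assoc] using atoms_ibp hμ Λ h0 h1 hα K m b0 hb0 θ hθ0 hθ La hLa (by omega))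
  simp only [LinearMap.toAddMonoidHom_coe, LinearMap.comp_apply, LinearMap.mulLeft_apply,
    mul_assoc (μ m)] at this
  refine le_trans this (mul_le_mul_of_nonneg_right (pow_le_pow_right₀ (by norm_num) hK) ?_)
  positivity

/-- The main estimate for a product with a distinguished factor. -/
theorem top_bound {α : ℝ} (hα : 1 ≤ α) (K : ℕ) (m : Mon ι) (p0 : Atom ι × Atom ι)
    (hp0 : AOk α p0.1 ∧ AOk α p0.2) (θ : ℝ) (hθ0 : 0 ≤ θ) (hθ1 : ∀ i, ‖p0.1.f.1 i‖ ≤ θ)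
    (hθ2 : ∀ i, ‖p0.2.f.1 i‖ ≤ θ) (Ls : List (Atom ι × Atom ι))
    (h : ∀ p ∈ Ls, AOk α p.1 ∧ AOk α p.2)
    (hs : ∀ p ∈ Ls, Small μ (4 * α ^ 2 * θ)
      (con μ p0.1 p.1 + con μ p0.1 p.2 + (con μ p0.2 p.1 + con μ p0.2 p.2)))
    (hK : Ls.length ≤ K) :
    ‖Λ (μ m * (pval μ p0 * pr (pval μ) Ls))‖ ≤
      2 ^ K * (8 * (K + 1) ^ 2 * (2 * K + 1) ^ K) * α ^ (K + 2) * θ := by
  have a1 := pairs_ibp hμ Λ h0 h1 hα K m p0.1 hp0.1 θ hθ0 hθ1 Ls h hK
  have a2 := pairs_ibp hμ Λ h0 h1 hα K m p0.2 hp0.2 θ hθ0 hθ2 Ls h hK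
  have a3 := der_bound (pval μ)
    (fun p => con μ p0.1 p.1 + con μ p0.1 p.2 + (con μ p0.2 p.1 + con μ p0.2 p.2))
    (fun p => p ∈ Ls) (Λ.comp (LinearMap.mulLeft ℂ (μ m))).toAddMonoidHom K
    (4 * α ^ 2 * θ * (2 ^ K * (α ^ K * (2 * K + 1) ^ K))) (fun p L' hp hL' hl => by
      have := hs p hp (Λ.comp (LinearMap.mulRight ℂ (μ m * pr (pval μ) L')))
        (2 ^ K * (α ^ K * (2 * K + 1) ^ K)) (by positivity) (fun m' => by
          have := pairs_bound hμ Λ h0 h1 hα K (m' + m) L' (fun q hq => h q (hL' q hq)) hl.le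
          simpa [hμ, mul_assoc] using this)
      simp only [LinearMap.toAddMonoidHom_coe, LinearMap.comp_apply, LinearMap.mulLeft_apply,
        LinearMap.mulRight_apply] at this ⊢
      rwa [mul_left_comm]) Ls [] (fun q hq => hq) (by simp) (by simpa using hK)
  simp only [LinearMap.toAddMonoidHom_coe, LinearMap.comp_apply, LinearMap.mulLeft_apply, pr_nil,
    one_mul] at a3
  rw [der_add (pval μ) (fun p => con μ p0.1 p.1 + con μ p0.1 p.2)
    (fun p => con μ p0.2 p.1 + con μ p0.2 p.2), mul_add, map_add] at a3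
  have e : Λ (μ m * (pval μ p0 * pr (pval μ) Ls)) =
      Λ (μ m * (aval μ p0.1 * pr (pval μ) Ls)) + Λ (μ m * (aval μ p0.2 * pr (pval μ) Ls)) := by
    rw [← map_add, ← mul_add, ← add_mul]; rfl
  rw [e]
  set x1 := Λ (μ m * (aval μ p0.1 * pr (pval μ) Ls))
  set x2 := Λ (μ m * (aval μ p0.2 * pr (pval μ) Ls))
  set y1 := Λ (μ m * der (pval μ) (fun p => con μ p0.1 p.1 + con μ p0.1 p.2) Ls)
  set y2 := Λ (μ m * der (pval μ) (fun p => con μ p0.2 p.1 + con μ p0.2 p.2) Ls)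
  have e2 : x1 + x2 = (x1 - y1) + (x2 - y2) + (y1 + y2) := by ring
  rw [e2]
  refine (norm_add₃_le).trans ?_
  have hl : (Ls.length : ℝ) ≤ (K + 1) ^ 2 := by
    have : (Ls.length : ℝ) ≤ K := by exact_mod_cast hK
    nlinarith [(Nat.cast_nonneg K : (0 : ℝ) ≤ K)]
  set W : ℝ := 2 ^ K * (2 * K + 1) ^ K * α ^ K * θ with hW
  have hW0 : 0 ≤ W := by positivity
  have b1 : 2 ^ K * (α ^ (K + 1) * (2 * (K + 1) ^ 2 * (2 * K + 1) ^ K * θ)) ≤
      2 * (K + 1) ^ 2 * α ^ 2 * W := by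
    have : 2 ^ K * (α ^ (K + 1) * (2 * (K + 1) ^ 2 * (2 * K + 1) ^ K * θ)) =
        2 * (K + 1) ^ 2 * α * W := by rw [hW]; ring
    rw [this]
    have : α ≤ α ^ 2 := by nlinarith
    gcongr
  have b2 : (Ls.length : ℝ) * (4 * α ^ 2 * θ * (2 ^ K * (α ^ K * (2 * K + 1) ^ K))) ≤
      4 * (K + 1) ^ 2 * α ^ 2 * W := by
    have : (Ls.length : ℝ) * (4 * α ^ 2 * θ * (2 ^ K * (α ^ K * (2 * K + 1) ^ K))) =
        4 * Ls.length * α ^ 2 * W := by rw [hW]; ring
    rw [this]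
    gcongr
  have b3 : 2 ^ K * (8 * (K + 1) ^ 2 * (2 * K + 1) ^ K) * α ^ (K + 2) * θ =
      8 * (K + 1) ^ 2 * α ^ 2 * W := by rw [hW]; ring
  rw [b3]
  linarith

end Pool.Agent.Lib.MP_695abf_an
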