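import Pool.Agent.Lib.MP_695abf_an.Spec

set_option autoImplicit false

open scoped NNRat Topology
open Filter

namespace Pool.Agent.Lib.MP_695abf_an

/-- The ambient monoid algebra. -/
abbrev Amb : Type := AddMonoidAlgebra ℂ (Mon Idx)

/-- Monomials. -/
noncomputable def mon (m : Mon Idx) : Amb := AddMonoidAlgebra.single m 1

theorem mon_add (m m' : Mon Idx) : mon (m + m') = mon m * mon m' := by
  simp [mon, AddMonoidAlgebra.single_mul_single]

theorem mon_zero : mon 0 = 1 := rfl

/-- Cut-off function. -/
noncomputable def cut (x : ℚ≥0) : ℝ := max 0 (1 - (x : ℝ))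

/-- The functional. -/
noncomputable def Phi : Amb →ₗ[ℂ] ℂ :=
  (Finsupp.linearCombination ℂ fun m : Mon Idx => if m.2 = 0 then (cut m.1 : ℂ) else 0).comp
    (AddMonoidAlgebra.coeffLinearEquiv ℂ).toLinearMap

theorem Phi_mon (m : Mon Idx) : Phi (mon m) = if m.2 = 0 then (cut m.1 : ℂ) else 0 := by
  simp [Phi, mon]

theorem span_mon (w : Amb) : w ∈ Submodule.span ℂ (Set.range mon) := by
  induction w using AddMonoidAlgebra.induction_linear with
  | zero => exact Submodule.zero_mem _
  | add f g hf hg => exact Submodule.add_mem _ hf hg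
  | single m r =>
    have : (AddMonoidAlgebra.single m r : Amb) = r • mon m := by simp [mon]
    rw [this]
    exact Submodule.smul_mem _ _ (Submodule.subset_span ⟨m, rfl⟩)

theorem cut_abs (x : ℚ≥0) : |cut x| ≤ 1 := by
  have : (0 : ℝ) ≤ x := by positivity
  unfold cut
  rw [abs_le]
  constructor
  · exact le_trans (by norm_num) (le_max_left _ _)
  · exact max_le (by norm_num) (by linarith)

theorem cut_zero {x : ℚ≥0} (h : 1 ≤ x) : cut x = 0 := by
  have : (1 : ℝ) ≤ x := by exact_mod_cast h
  exact max_eq_left (by linarith)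

theorem cut_diff (x y : ℚ≥0) : |cut x - cut (x + y)| ≤ y := by
  have hy : (0 : ℝ) ≤ y := by positivity
  unfold cut
  push_cast
  refine (abs_max_sub_max_le_max _ _ _ _).trans ?_
  rw [sub_self, abs_zero]
  refine max_le hy (le_of_eq ?_)
  rw [show 1 - (x : ℝ) - (1 - (x + y)) = y by ring, abs_of_nonneg hy]

theorem norm_Phi_mon (m : Mon Idx) : ‖Phi (mon m)‖ ≤ 1 := by
  rw [Phi_mon]
  split_ifs
  · rw [Complex.norm_real]; exact cut_abs _
  · simp

theorem Phi_vanish (m : Mon Idx) (w : Amb) (h : 1 ≤ m.1) : Phi (mon m * w) = 0 := by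
  have hw := span_mon w
  induction hw using Submodule.span_induction with
  | mem x hx =>
    obtain ⟨m', rfl⟩ := hx
    rw [← mon_add, Phi_mon, cut_zero (by simpa using h.trans le_self_add)]
    simp
  | zero => simp
  | add x y _ _ hx hy => rw [mul_add, map_add, hx, hy, add_zero]
  | smul c x _ hx => rw [mul_smul_comm, map_smul, hx, smul_zero]

/-- Rapidly growing denominators. -/
def den : ℕ → ℕ
  | 0 => 2
  | n + 1 => (2 * (n + 1)) ^ den n + den n + 1

theorem den_strictMono : StrictMono den :=
  strictMono_nat_of_lt_succ fun n => by simp only [den]; omega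

theorem den_pos (n : ℕ) : 0 < den n := lt_of_lt_of_le (by simp [den]) (den_strictMono.monotone n.zero_le)

/-- Small degrees. -/
noncomputable def tt (n : ℕ) : ℚ≥0 := (den n : ℚ≥0)⁻¹

theorem tt_pos (n : ℕ) : 0 < tt n := by
  have := den_pos n
  unfold tt
  positivity

/-- Scalar multiples of pure degree monomials. -/
noncomputable def bval (b : ℂ × ℚ≥0) : Amb := b.1 • mon (b.2, 0)

/-- The two terms of an approximate identity generator. -/
noncomputable def vpair (n : ℕ) : (ℂ × ℚ≥0) × (ℂ × ℚ≥0) :=
  ((n + 1, tt n), (-(n + 1), tt n + tt (n + 1)))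

/-- Approximate identity generators. -/
noncomputable def vv (n : ℕ) : Amb := bval (vpair n).1 + bval (vpair n).2

theorem bval_prod (La : List (ℂ × ℚ≥0)) : ∀ m : Mon Idx, mon m * pr bval La =
    (La.map Prod.fst).prod • mon (m.1 + (La.map Prod.snd).sum, m.2) := by
  induction La with
  | nil => intro m; simp
  | cons b L ih =>
    intro m
    have := ih (m + (b.2, 0))
    rw [mon_add] at this
    simp only [pr_cons, List.map_cons, List.prod_cons, List.sum_cons, bval, mul_smul,
      smul_mul_assoc, mul_smul_comm, ← mul_assoc, this, Prod.fst_add, Prod.snd_add, add_zero,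
      add_assoc]

theorem pr_vv (Lv : List ℕ) :
    pr vv Lv = pr (fun p : (ℂ × ℚ≥0) × (ℂ × ℚ≥0) => bval p.1 + bval p.2) (Lv.map vpair) := by
  rw [pr_map]; rfl

theorem base_zero (m : Mon Idx) (hm : m.2 ≠ 0) (Lv : List ℕ) : Phi (mon m * pr vv Lv) = 0 := by
  have := choice_bound bval (fun _ => True) (Lv.map vpair)
    (Phi.comp (LinearMap.mulLeft ℂ (mon m))).toAddMonoidHom 0 (by simp) (fun La _ _ => by
      simp only [LinearMap.toAddMonoidHom_coe, LinearMap.comp_apply, LinearMap.mulLeft_apply]
      rw [bval_prod, map_smul, Phi_mon]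
      simp [hm])
  rw [mul_zero, norm_le_zero_iff] at this
  rw [pr_vv]
  exact this

theorem base_bound (m : Mon Idx) (Lv : List ℕ) : ‖Phi (mon m * pr vv Lv)‖ ≤ 1 := by
  by_cases hL : Lv = []
  · subst hL; simpa using norm_Phi_mon m
  obtain ⟨n, hn, hmax⟩ := exists_max_list id Lv hL
  simp only [id] at hmax
  have hd : (0 : ℚ≥0) < den n := by exact_mod_cast den_pos n
  by_cases hl : den n ≤ Lv.length
  · have := choice_bound bval (fun b => tt n ≤ b.2) (Lv.map vpair)
      (Phi.comp (LinearMap.mulLeft ℂ (mon m))).toAddMonoidHom 0 (by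
        intro p hp
        obtain ⟨k, hk, rfl⟩ := List.mem_map.mp hp
        have : tt n ≤ tt k := by
          unfold tt
          apply inv_anti₀ (by exact_mod_cast den_pos k)
          exact_mod_cast den_strictMono.monotone (hmax k hk)
        exact ⟨this, this.trans le_self_add⟩) (fun La hla hLa => by
        simp only [LinearMap.toAddMonoidHom_coe, LinearMap.comp_apply, LinearMap.mulLeft_apply]
        rw [bval_prod, map_smul, Phi_mon, cut_zero]
        · simp
        · have h1 : (La.map Prod.snd).length • tt n ≤ (La.map Prod.snd).sum :=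
            List.card_nsmul_le_sum _ _ (by
              intro x hx
              obtain ⟨b, hb, rfl⟩ := List.mem_map.mp hx
              exact hLa b hb)
          have h2 : (1 : ℚ≥0) ≤ (La.map Prod.snd).length • tt n := by
            rw [nsmul_eq_mul, tt, ← div_eq_mul_inv, one_le_div₀ hd]
            simp only [List.length_map] at hla ⊢
            exact_mod_cast hla ▸ hl
          exact (h2.trans h1).trans le_add_self)
    rw [mul_zero] at this
    rw [pr_vv]
    exact le_trans this zero_le_one
  obtain ⟨L1, L2, rfl⟩ := List.append_of_mem hn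
  have e1 : mon m * pr vv (L1 ++ n :: L2) = mon m * vv n * pr vv (L1 ++ L2) := by
    rw [pr_append, pr_append, pr_cons]; ring
  have hsub : ∀ p ∈ L1 ++ L2, p ∈ L1 ++ n :: L2 := by
    intro p hp
    rcases List.mem_append.mp hp with hp | hp <;> simp [hp]
  set K := (L1 ++ L2).length with hK
  have hK' : K + 1 ≤ den n := by simp at hl hK; omega
  have := choice_bound bval (fun b => ‖b.1‖ ≤ (n : ℝ) + 1) ((L1 ++ L2).map vpair)
    (Phi.comp (LinearMap.mulLeft ℂ (mon m * vv n))).toAddMonoidHom
    (((n : ℝ) + 1) ^ (K + 1) * tt (n + 1)) (by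
      intro p hp
      obtain ⟨k, hk, rfl⟩ := List.mem_map.mp hp
      have : (k : ℝ) ≤ n := by exact_mod_cast hmax k (hsub k hk)
      simp only [vpair, norm_neg, norm_nat_add_one]
      constructor <;> linarith) (fun La hla hLa => by
      simp only [LinearMap.toAddMonoidHom_coe, LinearMap.comp_apply, LinearMap.mulLeft_apply]
      have hc : ‖(La.map Prod.fst).prod‖ ≤ ((n : ℝ) + 1) ^ K := by
        have : La.length = K := by rw [hla, List.length_map]
        rw [← this]
        clear this hla
        induction La with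
        | nil => simp
        | cons b L ih =>
          simp only [List.map_cons, List.prod_cons, norm_mul, List.length_cons, pow_succ']
          exact mul_le_mul (hLa b (by simp)) (ih fun b' hb' => hLa b' (by simp [hb']))
            (norm_nonneg _) (by positivity)
      rw [mul_right_comm, bval_prod, smul_mul_assoc, map_smul, norm_smul, pow_succ, mul_assoc]
      refine mul_le_mul hc ?_ (norm_nonneg _) (by positivity)
      set y := m.1 + (La.map Prod.snd).sum
      have e2 : mon (y, m.2) * vv n =
          ((n : ℂ) + 1) • (mon (y + tt n, m.2) - mon (y + tt n + tt (n + 1), m.2)) := by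
        simp only [vv, vpair, bval, mul_add, mul_smul_comm, ← mon_add, Prod.mk_add_mk, add_zero,
          add_assoc, neg_smul, mul_neg, sub_eq_add_neg, smul_add, smul_neg]
      rw [e2, map_smul, norm_smul, norm_nat_add_one, map_sub, Phi_mon, Phi_mon]
      refine mul_le_mul_of_nonneg_left ?_ (by positivity)
      split_ifs
      · rw [← Complex.ofReal_sub, Complex.norm_real]
        exact cut_diff _ _
      · rw [sub_zero, norm_zero]; positivity)
  rw [e1, pr_vv]
  refine le_trans this ?_
  simp only [List.length_map, ← hK]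
  have h3 : ((tt (n + 1) : ℚ≥0) : ℝ) = (den (n + 1) : ℝ)⁻¹ := by simp [tt]
  have h4 : (0 : ℝ) < den (n + 1) := by exact_mod_cast den_pos (n + 1)
  rw [h3, ← mul_assoc, ← div_eq_mul_inv, div_le_one h4]
  have h5 : 2 ^ K * (n + 1) ^ (K + 1) ≤ den (n + 1) := by
    have a1 : (2 * (n + 1)) ^ (K + 1) ≤ (2 * (n + 1)) ^ den n :=
      Nat.pow_le_pow_right (by omega) hK'
    have a2 : (2 * (n + 1)) ^ (K + 1) = 2 * (2 ^ K * (n + 1) ^ (K + 1)) := by
      rw [mul_pow]; ring
    simp only [den]
    omega
  exact_mod_cast h5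

/-- Value of a special generator. -/
noncomputable def sval (p : Spec) : Amb := pval mon p.atoms

/-- The multiplicative set that generates the unit ball. -/
def ballSet : Submonoid Amb where
  carrier := {s | ∃ (m : Mon Idx) (Lv : List ℕ) (Ls : List Spec), (∀ p ∈ Ls, thr p.j ≤ p.n) ∧
    s = mon m * pr vv Lv * pr sval Ls}
  one_mem' := ⟨0, [], [], by simp, by simp [mon_zero]⟩
  mul_mem' := by
    rintro _ _ ⟨m, Lv, Ls, h, rfl⟩ ⟨m', Lv', Ls', h', rfl⟩
    refine ⟨m + m', Lv ++ Lv', Ls ++ Ls', ?_, ?_⟩
    · intro p hp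
      rcases List.mem_append.mp hp with hp | hp
      · exact h p hp
      · exact h' p hp
    · rw [mon_add, pr_append, pr_append]; ring

theorem mon_mem (m : Mon Idx) : mon m ∈ ballSet := ⟨m, [], [], by simp, by simp⟩

theorem vv_mem (n : ℕ) : vv n ∈ ballSet := ⟨0, [n], [], by simp, by simp [mon_zero]⟩

theorem sval_mem (p : Spec) (h : thr p.j ≤ p.n) : sval p ∈ ballSet :=
  ⟨0, [], [p], by simpa using h, by simp [mon_zero]⟩

theorem Phi_ball {s : Amb} (hs : s ∈ ballSet) : ‖Phi s‖ ≤ 1 := by
  obtain ⟨m, Lv, Ls, h, rfl⟩ := hs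
  have := spec_bound mon_add (Phi.comp (LinearMap.mulRight ℂ (pr vv Lv)))
    (fun m hm => by simpa using base_zero m hm Lv) (fun m => by simpa using base_bound m Lv)
    (fun m w hm => by simpa [mul_assoc] using Phi_vanish m _ hm) m Ls h
  simp only [LinearMap.comp_apply, LinearMap.mulRight_apply] at this
  rw [mul_right_comm]
  exact this

end Pool.Agent.Lib.MP_695abf_an
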