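import Pool.Agent.Lib.MP_695abf_an.Atoms

set_option autoImplicit false

open scoped NNRat

namespace Pool.Agent.Lib.MP_695abf_an

/-- Hadamard matrix of order four. -/
def had : Fin 4 → Fin 4 → ℤ := ![![1, 1, 1, 1], ![1, -1, 1, -1], ![1, 1, -1, -1], ![1, -1, -1, 1]]

/-- A flat sign vector. -/
def chp : Fin 4 → ℤ := ![1, 1, 1, -1]

/-- One factor of a sign function. -/
def fac (b : Bool) (x c : Fin 4) : ℤ := had x c * (if b then chp c else 1)

theorem fac_abs : ∀ (b : Bool) (x c : Fin 4), |fac b x c| = 1 := by decide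

theorem fac_sum_x : ∀ (b : Bool) (c c' : Fin 4),
    ∑ x, fac b x c * fac b x c' = if c = c' then 4 else 0 := by decide

theorem fac_sum_c : ∀ (b b' : Bool) (x x' : Fin 4),
    |∑ c, fac b x c * fac b' x' c| ≤ if b = b' then 4 else 2 := by decide

theorem fac_sum_self : ∀ (x : Fin 4), ∑ c, fac false x c * fac false x c = 4 := by decide

/-- Sign function on words of length `N`. -/
def sgn (N : ℕ) (S : ℕ → Bool) (ξ i : Fin N → Fin 4) : ℤ := ∏ t : Fin N, fac (S t) (ξ t) (i t)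

theorem sgn_abs (N : ℕ) (S : ℕ → Bool) (ξ i : Fin N → Fin 4) : |sgn N S ξ i| = 1 := by
  unfold sgn
  rw [Finset.abs_prod]
  simp [fac_abs]

theorem norm_sgn (N : ℕ) (S : ℕ → Bool) (ξ i : Fin N → Fin 4) : ‖(sgn N S ξ i : ℂ)‖ = 1 := by
  rw [Complex.norm_intCast, ← Int.cast_abs, sgn_abs]; simp

theorem sgn_sum_i (N : ℕ) (S S' : ℕ → Bool) (ξ ξ' : Fin N → Fin 4) :
    ∑ i, sgn N S ξ i * sgn N S' ξ' i =
      ∏ t : Fin N, ∑ c, fac (S t) (ξ t) c * fac (S' t) (ξ' t) c := by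
  rw [Finset.prod_univ_sum, Fintype.piFinset_univ]
  refine Finset.sum_congr rfl fun i _ => ?_
  unfold sgn
  rw [← Finset.prod_mul_distrib]

theorem sgn_sum_xi (N : ℕ) (S : ℕ → Bool) (i i' : Fin N → Fin 4) :
    ∑ ξ, sgn N S ξ i * sgn N S ξ i' = if i = i' then 4 ^ N else 0 := by
  have : ∑ ξ, sgn N S ξ i * sgn N S ξ i' =
      ∏ t : Fin N, ∑ x, fac (S t) x (i t) * fac (S t) x (i' t) := by
    rw [Finset.prod_univ_sum, Fintype.piFinset_univ]
    refine Finset.sum_congr rfl fun ξ _ => ?_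
    unfold sgn
    rw [← Finset.prod_mul_distrib]
  rw [this]
  simp only [fac_sum_x]
  split_ifs with h
  · subst h; simp
  · obtain ⟨t, ht⟩ := Function.ne_iff.mp h
    exact Finset.prod_eq_zero (Finset.mem_univ t) (by simp [ht])

theorem sgn_snoc (n : ℕ) (S : ℕ → Bool) (hS : S n = false) (ξ : Fin n → Fin 4) (c : Fin 4)
    (i : Fin (n + 1) → Fin 4) :
    sgn (n + 1) S (Fin.snoc ξ c) i = sgn n S ξ (Fin.init i) * fac false c (i (Fin.last n)) := by
  unfold sgn
  rw [Fin.prod_univ_castSucc]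
  simp [hS, Fin.init]

theorem sgn_pair_bound (N : ℕ) (S S' : ℕ → Bool) (ξ ξ' : Fin N → Fin 4) (q : ℕ)
    (hq : q ≤ ((Finset.univ : Finset (Fin N)).filter fun t : Fin N => S t ≠ S' t).card) :
    ‖((∑ i, sgn N S ξ i * sgn N S' ξ' i : ℤ) : ℂ)‖ ≤ 4 ^ N * (1 / 2) ^ q := by
  rw [Complex.norm_intCast, ← Int.cast_abs, sgn_sum_i, Finset.abs_prod, Int.cast_prod]
  have h1 : ∏ t : Fin N, ((|∑ c, fac (S t) (ξ t) c * fac (S' t) (ξ' t) c| : ℤ) : ℝ) ≤
      ∏ t : Fin N, (4 * if S t ≠ S' t then (1 / 2 : ℝ) else 1) := by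
    refine Finset.prod_le_prod (fun t _ => by positivity) fun t _ => ?_
    have := fac_sum_c (S t) (S' t) (ξ t) (ξ' t)
    by_cases h : S t = S' t
    · rw [if_pos h] at this
      rw [if_neg (not_not.mpr h)]
      have : ((|∑ c, fac (S t) (ξ t) c * fac (S' t) (ξ' t) c| : ℤ) : ℝ) ≤ 4 := by exact_mod_cast this
      linarith
    · rw [if_neg h] at this
      rw [if_pos h]
      have : ((|∑ c, fac (S t) (ξ t) c * fac (S' t) (ξ' t) c| : ℤ) : ℝ) ≤ 2 := by exact_mod_cast this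
      linarith
  refine h1.trans ?_
  rw [Finset.prod_mul_distrib, Finset.prod_ite, Finset.prod_const, Finset.prod_const,
    Finset.prod_const_one, mul_one]
  simp only [Finset.card_univ, Fintype.card_fin]
  refine mul_le_mul_of_nonneg_left ?_ (by positivity)
  exact pow_le_pow_of_le_one (by norm_num) (by norm_num) hq

/-- Positions of the chirps of a label. -/
def cset (n l : ℕ) (t : ℕ) : Bool := decide (t < n ∧ padicValNat 2 (t + 1) = l)

theorem cset_self (n l : ℕ) : cset n l n = false := by simp [cset]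

theorem cset_count (N n n' l l' : ℕ) (hn : n ≤ N) (hl : l ≠ l') :
    n / 2 ^ (l + 1) ≤
      ((Finset.univ : Finset (Fin N)).filter fun t : Fin N => cset n l t ≠ cset n' l' t).card := by
  have hlt : ∀ a : Fin (n / 2 ^ (l + 1)), 2 ^ l * (2 * a.val + 1) - 1 < n := by
    intro a
    have h1 : a.val + 1 ≤ n / 2 ^ (l + 1) := a.isLt
    have h2 := (Nat.le_div_iff_mul_le (by positivity)).mp h1
    have h3 : 2 ^ l * (2 * a.val + 1) + 2 ^ l = (a.val + 1) * 2 ^ (l + 1) := by ring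
    have h4 : 0 < 2 ^ l := by positivity
    omega
  let φ : Fin (n / 2 ^ (l + 1)) → Fin N := fun a => ⟨2 ^ l * (2 * a.val + 1) - 1, by
    have := hlt a; omega⟩
  have hpos : ∀ a : ℕ, 2 ^ l * (2 * a + 1) - 1 + 1 = 2 ^ l * (2 * a + 1) := fun a => by
    have : 0 < 2 ^ l * (2 * a + 1) := by positivity
    omega
  have := Finset.card_le_card_of_injOn (s := Finset.univ)
    (t := (Finset.univ : Finset (Fin N)).filter fun t : Fin N => cset n l t ≠ cset n' l' t) φ
    (fun a _ => by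
      have hv : padicValNat 2 (2 ^ l * (2 * a.val + 1)) = l := by
        rw [padicValNat.mul (by positivity) (by positivity), padicValNat.prime_pow,
          padicValNat.eq_zero_of_not_dvd (by omega)]
        rfl
      simp only [Finset.coe_filter, Finset.mem_univ, true_and, Set.mem_ofPred_eq, φ, cset, hpos,
        hv, hlt a, hl]
      simp)
    (fun a _ a' _ h => by
      have h1 : 2 ^ l * (2 * a.val + 1) - 1 = 2 ^ l * (2 * a'.val + 1) - 1 := congrArg Fin.val h
      have h2 : 2 ^ l * (2 * a.val + 1) = 2 ^ l * (2 * a'.val + 1) := by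
        rw [← hpos a.val, ← hpos a'.val, h1]
      have h3 := Nat.eq_of_mul_eq_mul_left (by positivity) h2
      exact Fin.ext (by omega))
  simpa using this

/-- The index set of the group generators. -/
abbrev Idx : Type := Σ N : ℕ, (Fin N → Fin 4)

/-- A vector supported on one level. -/
noncomputable def lift (N : ℕ) (f : (Fin N → Fin 4) → ℂ) : Idx →₀ ℂ :=
  (Finsupp.equivFunOnFinite.symm f).embDomain (Function.Embedding.sigmaMk N)

theorem lift_apply (N : ℕ) (f : (Fin N → Fin 4) → ℂ) (i : Fin N → Fin 4) :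
    lift N f ⟨N, i⟩ = f i := by
  unfold lift
  exact Finsupp.embDomain_apply_self _ _ i

theorem lift_apply_ne {N N' : ℕ} (h : N ≠ N') (f : (Fin N → Fin 4) → ℂ) (i : Fin N' → Fin 4) :
    lift N f ⟨N', i⟩ = 0 := by
  unfold lift
  apply Finsupp.embDomain_of_notMem_range
  rintro ⟨j, hj⟩
  exact h (congrArg Sigma.fst hj)

theorem sum_lift {γ : Type} [AddCommMonoid γ] (N : ℕ) (f : (Fin N → Fin 4) → ℂ)
    (F : Idx → ℂ → γ) (hF : ∀ i, F i 0 = 0) :
    ∑ i ∈ (lift N f).support, F i (lift N f i) = ∑ i, F ⟨N, i⟩ (f i) := by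
  change (lift N f).sum F = _
  unfold lift
  rw [Finsupp.sum_embDomain, Finsupp.sum_fintype _ _ (fun i => hF _)]
  rfl

/-- Normalised sign vector. -/
noncomputable def svec (N : ℕ) (S : ℕ → Bool) (ξ : Fin N → Fin 4) (c : ℂ) : Idx →₀ ℂ :=
  lift N fun i => c * sgn N S ξ i / 2 ^ N

theorem norm_svec_apply (N : ℕ) (S : ℕ → Bool) (ξ : Fin N → Fin 4) {c : ℂ} (hc : ‖c‖ = 1)
    (i : Idx) : ‖svec N S ξ c i‖ ≤ (1 / 2) ^ N := by
  obtain ⟨N', i⟩ := i
  by_cases h : N = N'
  · subst h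
    unfold svec
    rw [lift_apply, norm_div, norm_mul, hc, norm_sgn]
    simp
  · unfold svec
    rw [lift_apply_ne h]
    simp

theorem nrm_svec (N : ℕ) (S : ℕ → Bool) (ξ : Fin N → Fin 4) {c : ℂ} (hc : ‖c‖ = 1) :
    nrm (svec N S ξ c) ≤ 1 := by
  unfold nrm svec
  rw [sum_lift N _ (fun _ z => ‖z‖ ^ 2) (by simp)]
  simp only [norm_div, norm_mul, hc, norm_sgn, norm_pow, Complex.norm_ofNat, Finset.sum_const,
    Finset.card_univ, Fintype.card_fun, Fintype.card_fin, nsmul_eq_mul]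
  push_cast
  rw [show (4 : ℝ) = 2 ^ 2 by norm_num, ← pow_mul, mul_comm 2 N, pow_mul]
  field_simp
  rfl

theorem pairing_svec (N : ℕ) (S S' : ℕ → Bool) (ξ ξ' : Fin N → Fin 4) (c c' : ℂ) (s s' : ℤ) :
    pairing (svec N S ξ c, s) (svec N S' ξ' c', s') = if s + s' = 0 then
      c * c' * ((∑ i, sgn N S ξ i * sgn N S' ξ' i : ℤ) : ℂ) / 4 ^ N else 0 := by
  unfold pairing
  split_ifs with h
  · unfold svec
    simp only
    rw [sum_lift N _ (fun i z => z * lift N (fun i => c' * sgn N S' ξ' i / 2 ^ N) i) (by simp)]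
    simp only [lift_apply]
    push_cast
    rw [Finset.mul_sum, Finset.sum_div]
    refine Finset.sum_congr rfl fun i _ => ?_
    rw [show (4 : ℂ) = 2 * 2 by norm_num, mul_pow]
    field_simp
  · rfl

theorem pairing_svec_ne {N N' : ℕ} (h : N ≠ N') (S S' : ℕ → Bool) (ξ : Fin N → Fin 4)
    (ξ' : Fin N' → Fin 4) (c c' : ℂ) (s s' : ℤ) :
    pairing (svec N S ξ c, s) (svec N' S' ξ' c', s') = 0 := by
  unfold pairing
  split_ifs with hs
  · unfold svec
    simp only
    rw [sum_lift N _ (fun i z => z * lift N' (fun i => c' * sgn N' S' ξ' i / 2 ^ N') i) (by simp)]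
    simp [lift_apply_ne h.symm]
  · rfl

theorem pairing_svec_small {N N' n n' l l' : ℕ} (hn : n ≤ N) (hl : l ≠ l') (ξ : Fin N → Fin 4)
    (ξ' : Fin N' → Fin 4) {c c' : ℂ} (hc : ‖c‖ = 1) (hc' : ‖c'‖ = 1) (s s' : ℤ) :
    ‖pairing (svec N (cset n l) ξ c, s) (svec N' (cset n' l') ξ' c', s')‖ ≤
      (1 / 2) ^ (n / 2 ^ (l + 1)) := by
  by_cases h : N = N'
  · subst h
    rw [pairing_svec]
    split_ifs
    · have := sgn_pair_bound N (cset n l) (cset n' l') ξ ξ' _ (cset_count N n n' l l' hn hl)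
      rw [norm_div, norm_mul, norm_mul, hc, hc', one_mul, one_mul, norm_pow, Complex.norm_ofNat,
        div_le_iff₀ (by positivity), mul_comm]
      exact this
    · simp
  · rw [pairing_svec_ne h]; simp

theorem pairing_svec_diag (n : ℕ) (S : ℕ → Bool) (hS : S n = false) (ξ ξ' : Fin n → Fin 4)
    (x : Fin 4) (c : ℂ) (hc : c * c = 1) (s s' : ℤ) :
    pairing (svec (n + 1) S (Fin.snoc ξ x) c, s) (svec (n + 1) S (Fin.snoc ξ' x) c, s') =
      pairing (svec n S ξ 1, s) (svec n S ξ' 1, s') := by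
  rw [pairing_svec, pairing_svec]
  split_ifs
  · rw [hc, sgn_sum_i, sgn_sum_i, Fin.prod_univ_castSucc]
    simp only [Fin.val_castSucc, Fin.snoc_castSucc, Fin.val_last, hS, Fin.snoc_last, fac_sum_self]
    push_cast
    rw [pow_succ]
    field_simp
  · rfl

end Pool.Agent.Lib.MP_695abf_an
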