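import Mathlib

set_option autoImplicit false

open scoped Topology
open Filter

namespace Pool.Agent.Lib.MP_695abf_an

section

variable {𝒜 : Type} [CommRing 𝒜] [Algebra ℂ 𝒜] (S : Submonoid 𝒜) (Φ : 𝒜 →ₗ[ℂ] ℂ)

/-- Admissible functionals. -/
def Adm : Set (𝒜 →ₗ[ℂ] ℂ) :=
  {φ | (∀ s ∈ S, ‖φ s‖ ≤ 1) ∧ ∀ w, (∀ w', Φ (w * w') = 0) → φ w = 0}

/-- The seminorm. -/
noncomputable def nn (a : 𝒜) : ℝ := ⨆ φ : Adm S Φ, ‖φ.1 a‖

variable {S Φ} (hS : ∀ w, w ∈ Submodule.span ℂ (S : Set 𝒜))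
include hS

theorem nn_bdd (a : 𝒜) : BddAbove (Set.range fun φ : Adm S Φ => ‖φ.1 a‖) := by
  have hw := hS a
  induction hw using Submodule.span_induction with
  | mem x hx => exact ⟨1, by rintro _ ⟨φ, rfl⟩; exact φ.2.1 x hx⟩
  | zero => exact ⟨0, by rintro _ ⟨φ, rfl⟩; simp⟩
  | add x y _ _ hx hy =>
    obtain ⟨c, hc⟩ := hx
    obtain ⟨c', hc'⟩ := hy
    refine ⟨c + c', ?_⟩
    rintro _ ⟨φ, rfl⟩
    simp only [map_add]
    exact (norm_add_le _ _).trans (add_le_add (hc ⟨φ, rfl⟩) (hc' ⟨φ, rfl⟩))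
  | smul r x _ hx =>
    obtain ⟨c, hc⟩ := hx
    refine ⟨‖r‖ * c, ?_⟩
    rintro _ ⟨φ, rfl⟩
    simp only [map_smul, norm_smul]
    exact mul_le_mul_of_nonneg_left (hc ⟨φ, rfl⟩) (norm_nonneg _)

theorem le_nn {φ : 𝒜 →ₗ[ℂ] ℂ} (hφ : φ ∈ Adm S Φ) (a : 𝒜) : ‖φ a‖ ≤ nn S Φ a :=
  le_ciSup (nn_bdd hS a) ⟨φ, hφ⟩

omit hS in
theorem nn_le {a : 𝒜} {c : ℝ} (h : ∀ φ ∈ Adm S Φ, ‖φ a‖ ≤ c) : nn S Φ a ≤ c := by
  have : Nonempty (Adm S Φ) := ⟨⟨0, by simp [Adm]⟩⟩
  exact ciSup_le fun φ => h φ.1 φ.2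

theorem nn_nonneg (a : 𝒜) : 0 ≤ nn S Φ a :=
  (norm_nonneg _).trans (le_nn hS (φ := 0) (by simp [Adm]) a)

theorem nn_mul (a b : 𝒜) : nn S Φ (a * b) ≤ nn S Φ a * nn S Φ b := by
  refine nn_le fun φ hφ => ?_
  have h1 : ∀ s ∈ S, ‖φ (s * b)‖ ≤ nn S Φ b := by
    intro s hs
    refine le_nn hS (φ := φ.comp (LinearMap.mulLeft ℂ s)) ⟨fun s' hs' => ?_, fun w hw => ?_⟩ b
    · exact hφ.1 _ (S.mul_mem hs hs')
    · exact hφ.2 _ fun w' => by simpa [mul_assoc, mul_left_comm] using hw (s * w')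
  refine le_of_forall_pos_le_add fun ε hε => ?_
  have ha := nn_nonneg (Φ := Φ) hS a
  have hb := nn_nonneg (Φ := Φ) hS b
  set c : ℝ := nn S Φ b + ε / (nn S Φ a + 1) with hc
  have hc0 : 0 < c := by positivity
  have h2 := le_nn hS (φ := ((c⁻¹ : ℝ) : ℂ) • φ.comp (LinearMap.mulRight ℂ b))
    ⟨fun s hs => by
      simp only [LinearMap.smul_apply, LinearMap.comp_apply, LinearMap.mulRight_apply, norm_smul,
        Complex.norm_real, Real.norm_eq_abs, abs_of_pos (inv_pos.mpr hc0)]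
      rw [inv_mul_le_iff₀ hc0, mul_one]
      exact (h1 s hs).trans (le_add_of_nonneg_right (by positivity)),
    fun w hw => by
      simp only [LinearMap.smul_apply, LinearMap.comp_apply, LinearMap.mulRight_apply]
      rw [hφ.2 _ fun w' => by simpa [mul_assoc] using hw (b * w'), smul_zero]⟩ a
  simp only [LinearMap.smul_apply, LinearMap.comp_apply, LinearMap.mulRight_apply, norm_smul,
    Complex.norm_real, Real.norm_eq_abs, abs_of_pos (inv_pos.mpr hc0)] at h2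
  rw [inv_mul_le_iff₀ hc0] at h2
  refine h2.trans ?_
  have h3 : ε / (nn S Φ a + 1) * nn S Φ a ≤ ε := by
    rw [div_mul_eq_mul_div, div_le_iff₀ (by positivity)]
    nlinarith
  rw [hc]
  nlinarith

end

theorem exists_banach {𝒜 : Type} [CommRing 𝒜] [Algebra ℂ 𝒜] (S : Submonoid 𝒜)
    (hS : ∀ w, w ∈ Submodule.span ℂ (S : Set 𝒜)) (Φ : 𝒜 →ₗ[ℂ] ℂ) (hΦ : ∀ s ∈ S, ‖Φ s‖ ≤ 1) :
    ∃ (B : Type) (_ : NormedCommRing B) (_ : NormedAlgebra ℂ B) (_ : CompleteSpace B)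
      (θ : 𝒜 →ₐ[ℂ] B), (∀ s ∈ S, ‖θ s‖ ≤ 1) ∧ (∀ w, (∀ w', Φ (w * w') = 0) → θ w = 0) ∧
      ∀ w, θ w = 0 → Φ w = 0 := by
  let p : AddGroupSeminorm 𝒜 :=
    { toFun := nn S Φ
      map_zero' := le_antisymm (nn_le fun φ _ => by simp) (nn_nonneg hS 0)
      add_le' := fun a b => nn_le fun φ hφ => by
        rw [map_add]
        exact (norm_add_le _ _).trans (add_le_add (le_nn hS hφ a) (le_nn hS hφ b))
      neg' := fun a => by simp [nn] }
  let sg : SeminormedAddCommGroup 𝒜 := p.toSeminormedAddCommGroup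
  let sr : SeminormedCommRing 𝒜 :=
    { sg, (inferInstance : CommRing 𝒜) with norm_mul_le := nn_mul hS }
  let na : NormedAlgebra ℂ 𝒜 :=
    { (inferInstance : Algebra ℂ 𝒜) with
      norm_smul_le := fun r a => nn_le fun φ hφ => by
        rw [map_smul, norm_smul]
        exact mul_le_mul_of_nonneg_left (le_nn hS hφ a) (norm_nonneg _) }
  let θ : 𝒜 →ₐ[ℂ] UniformSpace.Completion 𝒜 :=
    { UniformSpace.Completion.coeRingHom with commutes' := fun r => rfl }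
  have hθ : ∀ a, ‖θ a‖ = nn S Φ a := fun a => UniformSpace.Completion.norm_coe a
  have hΦ' : Φ ∈ Adm S Φ := ⟨hΦ, fun w hw => by simpa using hw 1⟩
  refine ⟨UniformSpace.Completion 𝒜, inferInstance, inferInstance, inferInstance, θ,
    fun s hs => ?_, fun w hw => ?_, fun w hw => ?_⟩
  · rw [hθ]; exact nn_le fun φ hφ => hφ.1 s hs
  · rw [← norm_le_zero_iff, hθ]
    exact nn_le fun φ hφ => by rw [hφ.2 w hw, norm_zero]
  · have := le_nn hS hΦ' w
    rw [← hθ, hw, norm_zero, norm_le_zero_iff] at this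
    exact this

/-- Limits of nilpotent elements of a commutative Banach algebra are quasinilpotent. -/
theorem quasinilpotent_of_mem_closure {B : Type} [NormedCommRing B] [NormedAlgebra ℂ B]
    [CompleteSpace B] {a : B} (ha : a ∈ closure {x : B | IsNilpotent x}) :
    Tendsto (fun n : ℕ => ‖a ^ (n + 1)‖ ^ (1 / ((n : ℝ) + 1))) atTop (𝓝 0) := by
  have h1 : ∀ z ∈ spectrum ℂ a, z = 0 := by
    intro z hz
    by_contra h0
    apply hz
    have hpos : 0 < ‖z‖ := norm_pos_iff.mpr h0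
    obtain ⟨x, hx, hd⟩ := Metric.mem_closure_iff.mp ha ‖z‖ hpos
    rw [dist_eq_norm] at hd
    have hu : IsUnit (algebraMap ℂ B z - (a - x)) := by
      have e : algebraMap ℂ B z - (a - x) = algebraMap ℂ B z * (1 - z⁻¹ • (a - x)) := by
        rw [mul_sub, mul_one, ← Algebra.smul_def, smul_smul, mul_inv_cancel₀ h0, one_smul]
      rw [e]
      refine ((IsUnit.mk0 z h0).map (algebraMap ℂ B)).mul (isUnit_one_sub_of_norm_lt_one ?_)
      rw [norm_smul, norm_inv, inv_mul_lt_iff₀ hpos, mul_one]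
      exact hd
    have : IsUnit (algebraMap ℂ B z - (a - x) + -x) :=
      IsNilpotent.isUnit_add_left_of_commute (IsNilpotent.neg hx) hu (Commute.all _ _)
    rw [spectrum.mem_resolventSet_iff]
    have e : algebraMap ℂ B z - (a - x) + -x = algebraMap ℂ B z - a := by ring
    rwa [e] at this
  have h2 : spectralRadius ℂ a = 0 := by
    refine le_antisymm (iSup₂_le fun z hz => ?_) zero_le
    rw [h1 z hz]; simp
  have h3 := spectrum.pow_norm_pow_one_div_tendsto_nhds_spectralRadius a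
  rw [h2] at h3
  have h4 := (ENNReal.tendsto_toReal ENNReal.zero_ne_top).comp
    (h3.comp (tendsto_add_atTop_nat 1))
  refine h4.congr fun n => ?_
  simp only [Function.comp]
  rw [ENNReal.toReal_ofReal (by positivity)]
  push_cast
  rfl

end Pool.Agent.Lib.MP_695abf_an
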