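import Mathlib

set_option autoImplicit false

open scoped TensorProduct Topology
open Filter

namespace Pool.Agent.Lib.MP_695abf_an

/-- The completed projective tensor product of a normed space with itself: the completion of the
algebraic tensor square for the projective norm. -/
abbrev ProjTensor (A : Type) [NormedAddCommGroup A] [NormedSpace ℂ A] : Type :=
  UniformSpace.Completion (⨂[ℂ] _ : Fin 2, A)

/-- The elementary tensor `x ⊗ y` in the completed projective tensor product. -/
noncomputable def tp {A : Type} [NormedAddCommGroup A] [NormedSpace ℂ A] (x y : A) :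
    ProjTensor A :=
  ((⨂ₜ[ℂ] i : Fin 2, ![x, y] i : ⨂[ℂ] _ : Fin 2, A) : ProjTensor A)

/-- Positive powers in a semigroup: `spow a n` is `a ^ (n + 1)`. -/
def spow {A : Type} [Mul A] (a : A) : ℕ → A
  | 0 => a
  | n + 1 => spow a n * a

/-- Every element is quasinilpotent. -/
def IsRadical (A : Type) [NonUnitalNormedRing A] : Prop :=
  ∀ a : A, Tendsto (fun n : ℕ => ‖spow a n‖ ^ (1 / ((n : ℝ) + 1))) atTop (𝓝 0)

/-- The identities saying that `l`, `r` are the bimodule actions and `p` the product map on
elementary tensors `t x y`, and that `ρ` is a bimodule morphism right inverse to `p`. -/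
def SplitIdent {A T : Type} [Mul A] (t : A → A → T) (l r : A → T → T) (p : T → A) (ρ : A → T) :
    Prop :=
  (∀ a x y : A, l a (t x y) = t (a * x) y) ∧ (∀ a x y : A, r a (t x y) = t x (y * a)) ∧
    (∀ x y : A, p (t x y) = x * y) ∧
    (∀ a b : A, ρ (a * b) = l a (ρ b)) ∧ (∀ a b : A, ρ (a * b) = r b (ρ a)) ∧
    ∀ a : A, p (ρ a) = a

/-- Bounded linear maps between complex normed spaces. -/
def Bdd {E F : Type} [NormedAddCommGroup E] [NormedSpace ℂ E] [NormedAddCommGroup F]
    [NormedSpace ℂ F] (f : E → F) : Prop :=
  IsBoundedLinearMap ℂ f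

/-- Existence of bounded maps satisfying the identities `SplitIdent`. -/
def Splits {A T : Type} [NormedAddCommGroup A] [NormedSpace ℂ A] [Mul A] [NormedAddCommGroup T]
    [NormedSpace ℂ T] (t : A → A → T) : Prop :=
  ∃ (l r : A → T → T) (p : T → A) (ρ : A → T),
    (∀ a, Bdd (l a)) ∧ (∀ a, Bdd (r a)) ∧ Bdd p ∧ Bdd ρ ∧ SplitIdent t l r p ρ

/-- Biprojectivity: with the bimodule actions `l`, `r` and the product map `p` on the completed
projective tensor product (the bounded operators determined by their values on elementary
tensors), there is a bounded bimodule morphism `ρ` that is a right inverse of `p`. -/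
def Biprojective (A : Type) [NonUnitalNormedRing A] [NormedSpace ℂ A] : Prop :=
  Splits (tp (A := A))

end Pool.Agent.Lib.MP_695abf_an
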