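import Pool.Agent.Lib.MP_695abf_an.Defs

set_option autoImplicit false

open scoped TensorProduct Topology
open Filter

namespace Pool.Agent.Lib.MP_695abf_an

section Basic

variable {A : Type} [NormedAddCommGroup A] [NormedSpace ℂ A]

theorem norm_tp_le (x y : A) : ‖tp x y‖ ≤ ‖x‖ * ‖y‖ := by
  unfold tp
  rw [UniformSpace.Completion.norm_coe]
  have := PiTensorProduct.projectiveSeminorm_tprod_le (𝕜 := ℂ) (E := fun _ : Fin 2 => A) ![x, y]
  simpa [Fin.prod_univ_two] using this

omit [NormedAddCommGroup A] [NormedSpace ℂ A] in
theorem vec_update_zero (x y z : A) : Function.update ![x, y] 0 z = ![z, y] := by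
  ext i; fin_cases i <;> simp

omit [NormedAddCommGroup A] [NormedSpace ℂ A] in
theorem vec_update_one (x y z : A) : Function.update ![x, y] 1 z = ![x, z] := by
  ext i; fin_cases i <;> simp

theorem tp_add_left (x x' y : A) : tp (x + x') y = tp x y + tp x' y := by
  unfold tp
  rw [← UniformSpace.Completion.coe_add]
  congr 1
  have := (PiTensorProduct.tprod ℂ (s := fun _ : Fin 2 => A)).map_update_add ![x, y] 0 x x'
  simpa only [vec_update_zero] using this

theorem tp_add_right (x y y' : A) : tp x (y + y') = tp x y + tp x y' := by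
  unfold tp
  rw [← UniformSpace.Completion.coe_add]
  congr 1
  have := (PiTensorProduct.tprod ℂ (s := fun _ : Fin 2 => A)).map_update_add ![x, y] 1 y y'
  simpa only [vec_update_one] using this

theorem tp_smul_left (c : ℂ) (x y : A) : tp (c • x) y = c • tp x y := by
  unfold tp
  rw [← UniformSpace.Completion.coe_smul]
  congr 1
  have := (PiTensorProduct.tprod ℂ (s := fun _ : Fin 2 => A)).map_update_smul ![x, y] 0 c x
  simpa only [vec_update_zero] using this

theorem tp_smul_right (c : ℂ) (x y : A) : tp x (c • y) = c • tp x y := by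
  unfold tp
  rw [← UniformSpace.Completion.coe_smul]
  congr 1
  have := (PiTensorProduct.tprod ℂ (s := fun _ : Fin 2 => A)).map_update_smul ![x, y] 1 c y
  simpa only [vec_update_one] using this

/-- The canonical bilinear map. -/
noncomputable def tpL : A →L[ℂ] A →L[ℂ] ProjTensor A :=
  LinearMap.mkContinuous₂
    (LinearMap.mk₂ ℂ tp tp_add_left tp_smul_left tp_add_right tp_smul_right) 1
    (fun x y => by simpa using norm_tp_le x y)

@[simp] theorem tpL_apply (x y : A) : tpL x y = tp x y := rfl

variable {F : Type} [NormedAddCommGroup F] [NormedSpace ℂ F]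

/-- A bounded bilinear map as a multilinear map on `Fin 2`. -/
noncomputable def toMulti (f : A →L[ℂ] A →L[ℂ] F) :
    ContinuousMultilinearMap ℂ (fun _ : Fin 2 => A) F :=
  MultilinearMap.mkContinuous
    { toFun := fun m => f (m 0) (m 1)
      map_update_add' := fun m i x y => by fin_cases i <;> simp
      map_update_smul' := fun m i c x => by fin_cases i <;> simp } ‖f‖
    (fun m => by
      simpa [Fin.prod_univ_two, mul_assoc] using f.le_opNorm₂ (m 0) (m 1))

theorem norm_toMulti_le (f : A →L[ℂ] A →L[ℂ] F) : ‖toMulti f‖ ≤ ‖f‖ :=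
  MultilinearMap.mkContinuous_norm_le _ (ContinuousLinearMap.opNorm_nonneg f) _

variable [CompleteSpace F]

/-- Linearisation of a bounded bilinear map. -/
noncomputable def tlift (f : A →L[ℂ] A →L[ℂ] F) : ProjTensor A →L[ℂ] F :=
  (PiTensorProduct.liftIsometry ℂ (fun _ : Fin 2 => A) F (toMulti f)).extend
    UniformSpace.Completion.toComplL

theorem tlift_coe (f : A →L[ℂ] A →L[ℂ] F) (t : ⨂[ℂ] _ : Fin 2, A) :
    tlift f (t : ProjTensor A) =
      PiTensorProduct.liftIsometry ℂ (fun _ : Fin 2 => A) F (toMulti f) t :=
  ContinuousLinearMap.extend_eq _ UniformSpace.Completion.denseRange_coe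
    (UniformSpace.Completion.isUniformInducing_coe _) t

@[simp] theorem tlift_tp (f : A →L[ℂ] A →L[ℂ] F) (x y : A) : tlift f (tp x y) = f x y := by
  unfold tp
  rw [tlift_coe]
  simp [toMulti]

theorem norm_tlift_apply (f : A →L[ℂ] A →L[ℂ] F) (t : ProjTensor A) :
    ‖tlift f t‖ ≤ ‖f‖ * ‖t‖ := by
  induction t using UniformSpace.Completion.induction_on with
  | hp => apply isClosed_le <;> fun_prop
  | ih t =>
    rw [tlift_coe, UniformSpace.Completion.norm_coe]
    refine ((PiTensorProduct.liftIsometry ℂ (fun _ : Fin 2 => A) F (toMulti f)).le_opNorm t).trans ?_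
    rw [LinearIsometryEquiv.norm_map]
    exact mul_le_mul_of_nonneg_right (norm_toMulti_le f) (norm_nonneg _)

omit [CompleteSpace F] in
theorem tensor_ext {f g : ProjTensor A →L[ℂ] F} (h : ∀ x y, f (tp x y) = g (tp x y)) : f = g := by
  ext t
  induction t using UniformSpace.Completion.induction_on with
  | hp => apply isClosed_eq <;> fun_prop
  | ih t =>
    induction t using PiTensorProduct.induction_on with
    | smul_tprod r m =>
      have hm : m = ![m 0, m 1] := by ext i; fin_cases i <;> rfl
      rw [UniformSpace.Completion.coe_smul, map_smul, map_smul]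
      congr 1
      have := h (m 0) (m 1)
      unfold tp at this
      rw [← hm] at this
      exact this
    | add s t hs ht => rw [UniformSpace.Completion.coe_add, map_add, map_add, hs, ht]

end Basic

section Alg

variable {A : Type} [NonUnitalNormedCommRing A] [NormedSpace ℂ A] [IsScalarTower ℂ A A]
  [SMulCommClass ℂ A A]

/-- Left action. -/
noncomputable def lact (a : A) : ProjTensor A →L[ℂ] ProjTensor A :=
  tlift (tpL.comp (ContinuousLinearMap.mul ℂ A a))

@[simp] theorem lact_tp (a x y : A) : lact a (tp x y) = tp (a * x) y := by simp [lact]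

/-- Right action. -/
noncomputable def ract (a : A) : ProjTensor A →L[ℂ] ProjTensor A :=
  tlift ((tpL.flip.comp (ContinuousLinearMap.mul ℂ A a)).flip)

@[simp] theorem ract_tp (a x y : A) : ract a (tp x y) = tp x (y * a) := by
  simp [ract, mul_comm a y]

theorem norm_lact_le (a : A) (t : ProjTensor A) : ‖lact a t‖ ≤ ‖a‖ * ‖t‖ := by
  refine (norm_tlift_apply _ t).trans (mul_le_mul_of_nonneg_right ?_ (norm_nonneg _))
  refine ContinuousLinearMap.opNorm_le_bound₂ _ (norm_nonneg _) fun x y => ?_
  simp only [ContinuousLinearMap.comp_apply, ContinuousLinearMap.mul_apply', tpL_apply]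
  exact (norm_tp_le _ _).trans (mul_le_mul_of_nonneg_right (norm_mul_le _ _) (norm_nonneg _))

theorem norm_ract_le (a : A) (t : ProjTensor A) : ‖ract a t‖ ≤ ‖a‖ * ‖t‖ := by
  refine (norm_tlift_apply _ t).trans (mul_le_mul_of_nonneg_right ?_ (norm_nonneg _))
  refine ContinuousLinearMap.opNorm_le_bound₂ _ (norm_nonneg _) fun x y => ?_
  simp only [ContinuousLinearMap.comp_apply, ContinuousLinearMap.mul_apply', tpL_apply,
    ContinuousLinearMap.flip_apply]
  refine (norm_tp_le _ _).trans ?_
  have := norm_mul_le a y
  have h2 := norm_nonneg x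
  nlinarith

/-- The left action evaluated at a fixed tensor, as a bounded map of the algebra variable. -/
noncomputable def lev (t : ProjTensor A) : A →L[ℂ] ProjTensor A :=
  LinearMap.mkContinuous
    { toFun := fun a => lact a t
      map_add' := fun a b => by
        have : lact (a + b) = lact a + lact b :=
          tensor_ext fun x y => by simp [add_mul, tp_add_left]
        rw [this]; rfl
      map_smul' := fun c a => by
        have : lact (c • a) = c • lact a :=
          tensor_ext fun x y => by simp [smul_mul_assoc, tp_smul_left]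
        rw [this]; rfl } ‖t‖
    (fun a => by simpa [mul_comm] using norm_lact_le a t)

@[simp] theorem lev_apply (t : ProjTensor A) (a : A) : lev t a = lact a t := rfl

/-- The right action evaluated at a fixed tensor. -/
noncomputable def rev (t : ProjTensor A) : A →L[ℂ] ProjTensor A :=
  LinearMap.mkContinuous
    { toFun := fun a => ract a t
      map_add' := fun a b => by
        have : ract (a + b) = ract a + ract b :=
          tensor_ext fun x y => by simp [mul_add, tp_add_right]
        rw [this]; rfl
      map_smul' := fun c a => by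
        have : ract (c • a) = c • ract a :=
          tensor_ext fun x y => by simp [mul_smul_comm, tp_smul_right]
        rw [this]; rfl } ‖t‖
    (fun a => by simpa [mul_comm] using norm_ract_le a t)

@[simp] theorem rev_apply (t : ProjTensor A) (a : A) : rev t a = ract a t := rfl

theorem lact_mul (a b : A) (t : ProjTensor A) : lact (a * b) t = lact a (lact b t) := by
  have : lact (a * b) = (lact a).comp (lact b) := tensor_ext fun x y => by simp [mul_assoc]
  rw [this]; rfl

theorem lact_ract (a b : A) (t : ProjTensor A) : lact a (ract b t) = ract b (lact a t) := by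
  have : (lact a).comp (ract b) = (ract b).comp (lact a) := tensor_ext fun x y => by simp
  exact congrArg (fun f : ProjTensor A →L[ℂ] ProjTensor A => f t) this

variable [CompleteSpace A]

/-- The product map. -/
noncomputable def tprodMap : ProjTensor A →L[ℂ] A := tlift (ContinuousLinearMap.mul ℂ A)

@[simp] theorem tprodMap_tp (x y : A) : tprodMap (tp x y) = x * y := by simp [tprodMap]

theorem tprodMap_lact (a : A) (t : ProjTensor A) : tprodMap (lact a t) = a * tprodMap t := by
  have : tprodMap.comp (lact a) = (ContinuousLinearMap.mul ℂ A a).comp tprodMap :=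
    tensor_ext fun x y => by simp [mul_assoc]
  exact congrArg (fun f : ProjTensor A →L[ℂ] A => f t) this

/-- A bounded sequence of operators converging on a set with dense span converges everywhere. -/
theorem cauchy_of_dense {E F : Type} [NormedAddCommGroup E] [NormedSpace ℂ E]
    [NormedAddCommGroup F] [NormedSpace ℂ F] (f : ℕ → E →L[ℂ] F) (hf : ∀ m a, ‖f m a‖ ≤ ‖a‖)
    (s : Set E) (hs : Dense (Submodule.span ℂ s : Set E))
    (hc : ∀ a ∈ s, CauchySeq fun m => f m a) (a : E) : CauchySeq fun m => f m a := by
  have h1 : ∀ b ∈ Submodule.span ℂ s, CauchySeq fun m => f m b := by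
    intro b hb
    induction hb using Submodule.span_induction with
    | mem x hx => exact hc x hx
    | zero => simpa using cauchySeq_const (0 : F)
    | add x y _ _ hx hy =>
      simp only [map_add]
      exact hx.add hy
    | smul c x _ hx =>
      simp only [map_smul]
      exact (uniformContinuous_const_smul c).comp_cauchySeq hx
  rw [Metric.cauchySeq_iff]
  intro ε hε
  obtain ⟨b, hb, hab⟩ := hs.exists_dist_lt a (show 0 < ε / 3 by positivity)
  obtain ⟨N, hN⟩ := Metric.cauchySeq_iff.mp (h1 b hb) (ε / 3) (by positivity)
  refine ⟨N, fun m hm n hn => ?_⟩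
  have e1 : dist (f m a) (f m b) < ε / 3 := by
    rw [dist_eq_norm, ← map_sub]
    exact (hf m _).trans_lt (by rwa [← dist_eq_norm])
  have e2 : dist (f n b) (f n a) < ε / 3 := by
    rw [dist_eq_norm, ← map_sub]
    exact (hf n _).trans_lt (by rwa [← dist_eq_norm, dist_comm])
  have e3 := hN m hm n hn
  have := dist_triangle4 (f m a) (f m b) (f n b) (f n a)
  linarith

/-- Criterion for biprojectivity from bounded central tensors. -/
theorem biprojective_of_central (s : Set A) (hs : Dense (Submodule.span ℂ s : Set A))
    (D : ℕ → ProjTensor A) (hD : ∀ m, ‖D m‖ ≤ 1)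
    (hc : ∀ m, ∀ a ∈ s, lact a (D m) = ract a (D m))
    (hl : ∀ a ∈ s, CauchySeq fun m => lact a (D m))
    (hp : ∀ a ∈ s, Tendsto (fun m => a * tprodMap (D m)) atTop (𝓝 a)) : Biprojective A := by
  have hb : ∀ m a, ‖lev (D m) a‖ ≤ ‖a‖ := fun m a => by
    have h1 := norm_lact_le a (D m)
    have h2 := hD m
    have h3 := norm_nonneg a
    simp only [lev_apply]
    nlinarith
  have hcau := cauchy_of_dense (fun m => lev (D m)) hb s hs hl
  have hex : ∀ a, ∃ t, Tendsto (fun m => lev (D m) a) atTop (𝓝 t) := fun a =>
    cauchySeq_tendsto_of_complete (hcau a)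
  choose ρ0 hρ0 using hex
  let ρ : A →L[ℂ] ProjTensor A := continuousLinearMapOfTendsto (fun m => lev (D m))
    (tendsto_pi_nhds.mpr hρ0)
  have hρ : ∀ a, Tendsto (fun m => lact a (D m)) atTop (𝓝 (ρ a)) := hρ0
  have hcen : ∀ m a, lact a (D m) = ract a (D m) := by
    intro m
    have : lev (D m) = rev (D m) := by
      apply ContinuousLinearMap.ext_on hs
      intro a ha
      exact hc m a ha
    intro a
    exact congrArg (fun f : A →L[ℂ] ProjTensor A => f a) this
  refine ⟨fun a => lact a, fun a => ract a, tprodMap, ρ, fun a => (lact a).isBoundedLinearMap,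
    fun a => (ract a).isBoundedLinearMap, (tprodMap (A := A)).isBoundedLinearMap, ρ.isBoundedLinearMap,
    lact_tp, ract_tp, tprodMap_tp, fun a b => ?_, fun a b => ?_, ?_⟩
  · refine tendsto_nhds_unique (hρ (a * b)) ?_
    simp only [lact_mul]
    exact ((lact a).continuous.tendsto _).comp (hρ b)
  · refine tendsto_nhds_unique (hρ (a * b)) ?_
    have : ∀ m, lact (a * b) (D m) = ract b (lact a (D m)) := fun m => by
      rw [lact_mul, hcen m b, lact_ract]
    simp only [this]
    exact ((ract b).continuous.tendsto _).comp (hρ a)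
  · have : tprodMap.comp ρ = ContinuousLinearMap.id ℂ A := by
      apply ContinuousLinearMap.ext_on hs
      intro a ha
      refine tendsto_nhds_unique ((tprodMap.continuous.tendsto _).comp (hρ a)) ?_
      have : (tprodMap ∘ fun m => lact a (D m)) = fun m => a * tprodMap (D m) := by
        ext m; simp [tprodMap_lact]
      rw [this]
      exact hp a ha
    intro a
    exact congrArg (fun f : A →L[ℂ] A => f a) this

end Alg

end Pool.Agent.Lib.MP_695abf_an
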