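import Pool.Agent.Lib.MP_695abf_an.Base
import Pool.Agent.Lib.MP_695abf_an.Tensor

set_option autoImplicit false

open scoped NNRat Topology
open Filter

namespace Pool.Agent.Lib.MP_695abf_an

/-- Group generator as a monomial. -/
noncomputable def gen (N : ℕ) (i : Fin N → Fin 4) (s : ℤ) : Mon Idx :=
  (0, Finsupp.single ⟨N, i⟩ s)

/-- First coefficient vector. -/
noncomputable def co1 (n j : ℕ) (ω : Bool × Fin 4 × (Fin n → Fin 4)) (i : Fin n → Fin 4) : ℂ :=
  1 * sgn n (cset n (lab n j ω.2.1 ω.1)) ω.2.2 i / 2 ^ n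

/-- Second coefficient vector. -/
noncomputable def co2 (n j : ℕ) (ω : Bool × Fin 4 × (Fin n → Fin 4)) (i : Fin (n + 1) → Fin 4) :
    ℂ :=
  sg ω.1 * sgn (n + 1) (cset n (lab n j ω.2.1 ω.1)) (Fin.snoc ω.2.2 ω.2.1) i / 2 ^ (n + 1)

theorem sgn_sum_xi' (N : ℕ) (S : ℕ → Bool) (i i' : Fin N → Fin 4) :
    ∑ ξ, (sgn N S ξ i : ℂ) * sgn N S ξ i' = if i = i' then 4 ^ N else 0 := by
  have := congrArg (Int.cast : ℤ → ℂ) (sgn_sum_xi N S i i')
  push_cast at this
  exact this

theorem two_pow_mul (n : ℕ) : (2 : ℂ) ^ n * 2 ^ n = 4 ^ n := by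
  rw [← mul_pow]; norm_num

theorem co11 (n j : ℕ) (i i' : Fin n → Fin 4) :
    ∑ ω, co1 n j ω i * co1 n j ω i' = if i = i' then 8 else 0 := by
  simp only [Fintype.sum_prod_type, co1]
  have : ∀ (a : Bool) (c : Fin 4), ∑ ξ : Fin n → Fin 4,
      1 * (sgn n (cset n (lab n j c a)) ξ i : ℂ) / 2 ^ n *
        (1 * sgn n (cset n (lab n j c a)) ξ i' / 2 ^ n) = if i = i' then 1 else 0 := by
    intro a c
    have h := sgn_sum_xi' n (cset n (lab n j c a)) i i'
    have e : ∀ ξ : Fin n → Fin 4, 1 * (sgn n (cset n (lab n j c a)) ξ i : ℂ) / 2 ^ n *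
        (1 * sgn n (cset n (lab n j c a)) ξ i' / 2 ^ n) =
        sgn n (cset n (lab n j c a)) ξ i * sgn n (cset n (lab n j c a)) ξ i' / 4 ^ n := by
      intro ξ; rw [← two_pow_mul]; field_simp
    simp only [e]
    rw [← Finset.sum_div, h]
    split_ifs <;> simp
  simp only [this]
  split_ifs <;> simp
  norm_num

theorem co12 (n j : ℕ) (i : Fin n → Fin 4) (i' : Fin (n + 1) → Fin 4) :
    ∑ ω, co1 n j ω i * co2 n j ω i' = 0 := by
  simp only [Fintype.sum_prod_type, co1, co2]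
  have : ∀ (a : Bool) (c : Fin 4), ∑ ξ : Fin n → Fin 4,
      1 * (sgn n (cset n (lab n j c a)) ξ i : ℂ) / 2 ^ n *
        (sg a * sgn (n + 1) (cset n (lab n j c a)) (Fin.snoc ξ c) i' / 2 ^ (n + 1)) =
      sg a * ((if i = Fin.init i' then 4 ^ n else 0) * fac false c (i' (Fin.last n)) /
        (2 ^ n * 2 ^ (n + 1))) := by
    intro a c
    rw [← sgn_sum_xi' n (cset n (lab n j c a)) i (Fin.init i'), Finset.sum_mul, Finset.sum_div,
      Finset.mul_sum]
    refine Finset.sum_congr rfl fun ξ _ => ?_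
    rw [sgn_snoc _ _ (cset_self _ _)]
    push_cast
    field_simp
  simp only [this, ← Finset.mul_sum, ← Finset.sum_mul]
  simp [sg]

theorem co22 (n j : ℕ) (i i' : Fin (n + 1) → Fin 4) :
    ∑ ω, co2 n j ω i * co2 n j ω i' = if i = i' then 2 else 0 := by
  simp only [Fintype.sum_prod_type, co2]
  have : ∀ (a : Bool) (c : Fin 4), ∑ ξ : Fin n → Fin 4,
      (sg a * sgn (n + 1) (cset n (lab n j c a)) (Fin.snoc ξ c) i / 2 ^ (n + 1) : ℂ) *
        (sg a * sgn (n + 1) (cset n (lab n j c a)) (Fin.snoc ξ c) i' / 2 ^ (n + 1)) =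
      (if Fin.init i = Fin.init i' then 4 ^ n else 0) / 4 ^ (n + 1) *
        (fac false c (i (Fin.last n)) * fac false c (i' (Fin.last n))) := by
    intro a c
    rw [← sgn_sum_xi' n (cset n (lab n j c a)) (Fin.init i) (Fin.init i'), Finset.sum_div,
      Finset.sum_mul]
    refine Finset.sum_congr rfl fun ξ _ => ?_
    rw [sgn_snoc _ _ (cset_self _ _), sgn_snoc _ _ (cset_self _ _), ← two_pow_mul (n + 1)]
    have := sg_mul a
    push_cast
    field_simp
    rw [sq, this, one_mul]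
  have h2 : ∑ c : Fin 4, (fac false c (i (Fin.last n)) : ℂ) * fac false c (i' (Fin.last n)) =
      if i (Fin.last n) = i' (Fin.last n) then 4 else 0 := by
    have := congrArg (Int.cast : ℤ → ℂ) (fac_sum_x false (i (Fin.last n)) (i' (Fin.last n)))
    push_cast at this
    exact this
  simp only [this, ← Finset.mul_sum, h2]
  by_cases h : i = i'
  · subst h
    simp only [if_true, Finset.sum_const, Finset.card_univ, Fintype.card_bool, nsmul_eq_mul]
    rw [pow_succ]
    field_simp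
    norm_num
  · rw [if_neg h]
    by_cases h1 : Fin.init i = Fin.init i'
    · have h3 : i (Fin.last n) ≠ i' (Fin.last n) := by
        intro h3
        apply h
        rw [← Fin.snoc_init_self i, ← Fin.snoc_init_self i', h1, h3]
      simp [h3]
    · simp [h1]

/-- Explicit form of a special generator. -/
noncomputable def sv {A : Type} [AddCommGroup A] [Module ℂ A] (ν : Mon Idx → A) (n j : ℕ)
    (ω : Bool × Fin 4 × (Fin n → Fin 4)) (b : Bool) : A :=
  ((n : ℂ) + 1) • ∑ i, co1 n j ω i •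
      ν ((if b then (quad j).p else (quad j).q) + gen n i (sg b)) +
    (((n : ℂ) + 1) * Complex.I) • ∑ i, co2 n j ω i •
      ν ((if b then (quad j).p' else (quad j).q') + gen (n + 1) i (sg b))

theorem mon_fval (N : ℕ) (f : (Fin N → Fin 4) → ℂ) (m : Mon Idx) (s : ℤ) :
    mon m * fval (gel mon) (lift N f, s) = ∑ i, f i • mon (m + gen N i s) := by
  rw [fval_eq]
  simp only
  rw [sum_lift N f (fun i z => z • gel mon (Finsupp.single i s)) (by simp), Finset.mul_sum]
  refine Finset.sum_congr rfl fun i _ => ?_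
  rw [mon_add, mul_smul_comm]
  rfl

theorem sval_eq (n j : ℕ) (ω : Bool × Fin 4 × (Fin n → Fin 4)) (b : Bool) :
    sval ⟨n, j, ω.2.2, ω.2.1, ω.1, b⟩ = sv mon n j ω b := by
  simp only [sval, pval, aval, Spec.atoms, svec, mon_fval]
  rfl

section

variable {A : Type} [NonUnitalNormedCommRing A] [NormedSpace ℂ A]

theorem sum_tp {Ω I I' : Type} [Fintype Ω] [Fintype I] [Fintype I'] (f : Ω → I → ℂ)
    (g : Ω → I' → ℂ) (X : I → A) (Y : I' → A) :
    ∑ ω, tp (∑ i, f ω i • X i) (∑ k, g ω k • Y k) =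
      ∑ i, ∑ k, (∑ ω, f ω i * g ω k) • tp (X i) (Y k) := by
  simp only [← tpL_apply, map_sum, map_smul, sum_apply,
    smul_apply, Finset.sum_smul, Finset.smul_sum, smul_smul]
  rw [Finset.sum_comm]
  conv_rhs => rw [Finset.sum_comm]
  refine Finset.sum_congr rfl fun k _ => ?_
  rw [Finset.sum_comm]
  refine Finset.sum_congr rfl fun i _ => Finset.sum_congr rfl fun ω _ => ?_
  rw [mul_comm]

/-- The approximate diagonals. -/
noncomputable def tau (ν : Mon Idx → A) (p q : Mon Idx) (n : ℕ) : ProjTensor A :=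
  ((4 : ℂ) ^ n)⁻¹ • ∑ i, tp (ν (p + gen n i 1)) (ν (q + gen n i (-1)))

theorem tau_ident (ν : Mon Idx → A) (n j : ℕ) :
    ∑ ω, tp (sv ν n j ω true) (sv ν n j ω false) = (8 * 4 ^ n * ((n : ℂ) + 1) ^ 2) •
      (tau ν (quad j).p (quad j).q n - tau ν (quad j).p' (quad j).q' (n + 1)) := by
  simp only [sv, tp_add_left, tp_add_right, tp_smul_left, tp_smul_right, Finset.sum_add_distrib,
    ← Finset.smul_sum, sum_tp, smul_add]
  have h21 : ∀ (i : Fin (n + 1) → Fin 4) (i' : Fin n → Fin 4),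
      ∑ ω, co2 n j ω i * co1 n j ω i' = 0 := by
    intro i i'
    simp only [mul_comm (co2 n j _ i)]
    exact co12 n j i' i
  simp only [co11, co12, co22, h21, zero_smul, Finset.sum_const_zero, smul_zero, add_zero,
    zero_add, ite_smul, Finset.sum_ite_eq, Finset.mem_univ, if_true, ← Finset.smul_sum, tau, sg,
    smul_sub, smul_smul, Bool.false_eq_true, if_false]
  rw [sub_eq_add_neg, ← neg_smul]
  congr 2
  · field_simp
  · have : ((n : ℂ) + 1) * Complex.I * (((n : ℂ) + 1) * Complex.I * 2) =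
        ((n : ℂ) + 1) ^ 2 * 2 * (Complex.I * Complex.I) := by ring
    rw [this, Complex.I_mul_I, pow_succ (4 : ℂ) n]
    field_simp
    norm_num

theorem tau_diff (ν : Mon Idx → A) (n j : ℕ) (h : ∀ ω b, ‖sv ν n j ω b‖ ≤ 1) :
    ‖tau ν (quad j).p (quad j).q n - tau ν (quad j).p' (quad j).q' (n + 1)‖ ≤
      1 / ((n : ℝ) + 1) ^ 2 := by
  have h1 : ‖∑ ω, tp (sv ν n j ω true) (sv ν n j ω false)‖ ≤ 8 * 4 ^ n := by
    refine (norm_sum_le _ _).trans ?_
    refine (Finset.sum_le_card_nsmul _ _ 1 fun ω _ => ?_).trans ?_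
    · refine (norm_tp_le _ _).trans ?_
      exact mul_le_one₀ (h ω true) (norm_nonneg _) (h ω false)
    · simp only [Finset.card_univ, Fintype.card_prod, Fintype.card_bool, Fintype.card_fin,
        Fintype.card_fun, nsmul_eq_mul]
      push_cast
      linarith
  rw [tau_ident, norm_smul, norm_mul, norm_mul, norm_pow, norm_pow, norm_nat_add_one] at h1
  simp only [Complex.norm_ofNat] at h1
  rw [le_div_iff₀ (by positivity)]
  have h4 : (0 : ℝ) < 8 * 4 ^ n := by positivity
  nlinarith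

theorem norm_tau_le (ν : Mon Idx → A) (hν : ∀ m : Mon Idx, 0 < m.1 → ‖ν m‖ ≤ 1) {p q : Mon Idx}
    (hp : 0 < p.1) (hq : 0 < q.1) (n : ℕ) : ‖tau ν p q n‖ ≤ 1 := by
  unfold tau
  rw [norm_smul, norm_inv, norm_pow, Complex.norm_ofNat, inv_mul_le_iff₀ (by positivity), mul_one]
  refine (norm_sum_le _ _).trans ?_
  refine (Finset.sum_le_card_nsmul _ _ 1 fun i _ => ?_).trans ?_
  · refine (norm_tp_le _ _).trans ?_
    exact mul_le_one₀ (hν _ (by simpa [gen] using hp)) (norm_nonneg _)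
      (hν _ (by simpa [gen] using hq))
  · simp

variable [IsScalarTower ℂ A A] [SMulCommClass ℂ A A] [CompleteSpace A]

theorem biprojective_of_model (ν : Mon Idx → A)
    (hmul : ∀ m m' : Mon Idx, 0 < m.1 → 0 < m'.1 → ν (m + m') = ν m * ν m')
    (hν : ∀ m : Mon Idx, 0 < m.1 → ‖ν m‖ ≤ 1)
    (hd : Dense (Submodule.span ℂ (ν '' {m | 0 < m.1}) : Set A))
    (hv : ∀ n : ℕ, ‖ν (tt n, 0) - ν (tt n + tt (n + 1), 0)‖ ≤ 1 / ((n : ℝ) + 1))
    (hs : ∀ n j ω b, thr j ≤ n → ‖sv ν n j ω b‖ ≤ 1) : Biprojective A := by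
  have hrel : ∀ p q p' q' : Mon Idx, 0 < p.1 → 0 < q.1 → 0 < p'.1 → 0 < q'.1 → p + q = p' + q' →
      ∀ᶠ n in atTop, ‖tau ν p q n - tau ν p' q' (n + 1)‖ ≤ 1 / ((n : ℝ) + 1) ^ 2 := by
    intro p q p' q' hp hq hp' hq' he
    obtain ⟨j, hj⟩ := quad_surj ⟨p, q, p', q', hp, hq, hp', hq', he⟩
    filter_upwards [eventually_ge_atTop (thr j)] with n hn
    have := tau_diff ν n j fun ω b => hs n j ω b hn
    rw [hj] at this
    exact this
  have hsum : Summable fun n : ℕ => 1 / ((n : ℝ) + 1) ^ 2 := by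
    have := (summable_nat_add_iff 1).mpr (Real.summable_one_div_nat_pow.mpr one_lt_two)
    simpa using this
  have hex : ∀ p q : Mon Idx, ∃ t, 0 < p.1 → 0 < q.1 → Tendsto (tau ν p q) atTop (𝓝 t) := by
    intro p q
    by_cases h : 0 < p.1 ∧ 0 < q.1
    · have h1 : Summable fun n => dist (tau ν p q n) (tau ν p q n.succ) := by
        refine Summable.of_norm_bounded_eventually_nat hsum ?_
        filter_upwards [hrel p q p q h.1 h.2 h.1 h.2 rfl] with n hn
        rw [Real.norm_of_nonneg dist_nonneg, dist_eq_norm]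
        exact hn
      obtain ⟨t, ht⟩ := cauchySeq_tendsto_of_complete (cauchySeq_of_summable_dist h1)
      exact ⟨t, fun _ _ => ht⟩
    · exact ⟨0, fun h1 h2 => (h ⟨h1, h2⟩).elim⟩
  choose L hL using hex
  have hLeq : ∀ p q p' q' : Mon Idx, 0 < p.1 → 0 < q.1 → 0 < p'.1 → 0 < q'.1 → p + q = p' + q' →
      L p q = L p' q' := by
    intro p q p' q' hp hq hp' hq' he
    have h1 := (hL p q hp hq).sub ((hL p' q' hp' hq').comp (tendsto_add_atTop_nat 1))
    have h2 : Tendsto (fun n => tau ν p q n - tau ν p' q' (n + 1)) atTop (𝓝 0) :=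
      squeeze_zero_norm' (hrel p q p' q' hp hq hp' hq' he) hsum.tendsto_atTop_zero
    exact sub_eq_zero.mp (tendsto_nhds_unique h1 h2)
  have hadd : ∀ r p : Mon Idx, 0 < p.1 → 0 < (r + p).1 := fun r p hp =>
    lt_of_lt_of_le hp (by simp)
  have hadd' : ∀ r p : Mon Idx, 0 < p.1 → 0 < (p + r).1 := fun r p hp =>
    lt_of_lt_of_le hp (by simp)
  have hl : ∀ r p q : Mon Idx, 0 < r.1 → 0 < p.1 → 0 < q.1 → lact (ν r) (L p q) = L (r + p) q := by
    intro r p q hr hp hq
    refine tendsto_nhds_unique (((lact (ν r)).continuous.tendsto _).comp (hL p q hp hq)) ?_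
    refine (hL (r + p) q (hadd r p hp) hq).congr fun n => ?_
    simp only [Function.comp, tau, map_smul, map_sum, lact_tp, add_assoc]
    congr 1
    refine Finset.sum_congr rfl fun i _ => ?_
    rw [hmul r _ hr (hadd' _ p hp)]
  have hr : ∀ r p q : Mon Idx, 0 < r.1 → 0 < p.1 → 0 < q.1 → ract (ν r) (L p q) = L p (r + q) := by
    intro r p q hr hp hq
    refine tendsto_nhds_unique (((ract (ν r)).continuous.tendsto _).comp (hL p q hp hq)) ?_
    refine (hL p (r + q) hp (hadd r q hq)).congr fun n => ?_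
    simp only [Function.comp, tau, map_smul, map_sum, ract_tp, add_assoc]
    congr 1
    refine Finset.sum_congr rfl fun i _ => ?_
    rw [hmul r _ hr (hadd' _ q hq), mul_comm]
  have hπ : ∀ p q : Mon Idx, 0 < p.1 → 0 < q.1 → tprodMap (L p q) = ν p * ν q := by
    intro p q hp hq
    refine tendsto_nhds_unique ((tprodMap.continuous.tendsto _).comp (hL p q hp hq)) ?_
    refine tendsto_const_nhds.congr fun n => ?_
    simp only [Function.comp, tau, map_smul, map_sum, tprodMap_tp]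
    have : ∀ i : Fin n → Fin 4, ν (p + gen n i 1) * ν (q + gen n i (-1)) = ν p * ν q := by
      intro i
      rw [← hmul _ _ (hadd' _ p hp) (hadd' _ q hq), ← hmul _ _ hp hq]
      congr 1
      have : gen n i 1 + gen n i (-1) = 0 := by simp [gen]
      rw [add_add_add_comm, this, add_zero]
    simp only [this, Finset.sum_const, Finset.card_univ, Fintype.card_fun, Fintype.card_fin]
    rw [← Nat.cast_smul_eq_nsmul ℂ, smul_smul]
    push_cast
    rw [inv_mul_cancel₀ (pow_ne_zero _ (by norm_num)), one_smul]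
  let u : ℕ → Mon Idx := fun m => (tt (m + 1), 0)
  have hu : ∀ m, 0 < (u m).1 := fun m => tt_pos _
  have hai : ∀ r : Mon Idx, 0 < r.1 → Tendsto (fun m => ν r * ν (u m)) atTop (𝓝 (ν r)) := by
    intro r hr
    rw [← tendsto_sub_nhds_zero_iff]
    refine squeeze_zero_norm' ?_ tendsto_one_div_add_atTop_nhds_zero_nat
    obtain ⟨N, hN⟩ := exists_nat_gt r.1⁻¹
    filter_upwards [eventually_ge_atTop N] with m hm
    have h1 : tt m < r.1 := by
      unfold tt
      rw [inv_lt_comm₀ (by exact_mod_cast den_pos m) hr]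
      refine hN.trans_le ?_
      exact_mod_cast hm.trans den_strictMono.le_apply
    have h2 : 0 < r.1 - tt m := tsub_pos_of_lt h1
    have e1 : ν r = ν (r.1 - tt m, r.2) * ν (tt m, 0) := by
      rw [← hmul _ _ h2 (tt_pos m)]
      congr 1
      ext1
      · simp [tsub_add_cancel_of_le h1.le]
      · simp
    have e2 : ν (tt m + tt (m + 1), 0) = ν (tt m, 0) * ν (u m) := by
      rw [← hmul _ _ (tt_pos m) (hu m)]
      simp [u]
    have e3 : ν r * ν (u m) - ν r =
        -(ν (r.1 - tt m, r.2) * (ν (tt m, 0) - ν (tt m + tt (m + 1), 0))) := by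
      rw [e2, mul_sub, ← mul_assoc, ← e1, neg_sub]
    rw [e3, norm_neg]
    refine (norm_mul_le _ _).trans ?_
    have := mul_le_mul (hν (r.1 - tt m, r.2) h2) (hv m) (norm_nonneg _) zero_le_one
    rwa [one_mul] at this
  have hai2 : ∀ r : Mon Idx, 0 < r.1 →
      Tendsto (fun m => ν r * (ν (u m) * ν (u m))) atTop (𝓝 (ν r)) := by
    intro r hr
    have h1 := hai r hr
    have h2 : Tendsto (fun m => (ν r * ν (u m) - ν r) * ν (u m)) atTop (𝓝 0) := by
      refine squeeze_zero_norm (fun m => ?_) (tendsto_iff_norm_sub_tendsto_zero.mp h1)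
      refine (norm_mul_le _ _).trans ?_
      exact mul_le_of_le_one_right (norm_nonneg _) (hν _ (hu m))
    have h3 := h2.add h1
    rw [zero_add] at h3
    refine h3.congr fun m => ?_
    rw [sub_mul, mul_assoc, sub_add_cancel]
  refine biprojective_of_central _ hd (fun m => L (u m) (u m)) (fun m => ?_) (fun m a ha => ?_)
    (fun a ha => ?_) (fun a ha => ?_)
  · exact le_of_tendsto' (hL _ _ (hu m) (hu m)).norm fun n => norm_tau_le ν hν (hu m) (hu m) n
  · obtain ⟨r, hr', rfl⟩ := ha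
    rw [hl r _ _ hr' (hu m) (hu m), hr r _ _ hr' (hu m) (hu m)]
    exact hLeq _ _ _ _ (hadd _ _ (hu m)) (hu m) (hu m) (hadd _ _ (hu m)) (by abel)
  · obtain ⟨r, hr', rfl⟩ := ha
    have h3 : 0 < r.1 / 3 := div_pos hr' (by norm_num)
    let r1 : Mon Idx := (r.1 / 3, r.2)
    let r2 : Mon Idx := (r.1 / 3, 0)
    have e : r = r1 + r2 + r2 := by
      ext1
      · simp only [r1, r2, Prod.fst_add]; ring
      · simp [r1, r2]
    have h4 : ∀ m, lact (ν r) (L (u m) (u m)) = lev (L r2 r2) (ν r1 * (ν (u m) * ν (u m))) := by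
      intro m
      rw [lev_apply, ← hmul _ _ (hu m) (hu m), ← hmul _ _ h3 (hadd _ _ (hu m)),
        hl r _ _ hr' (hu m) (hu m), hl _ _ _ (hadd' _ _ h3) h3 h3]
      refine hLeq _ _ _ _ (hadd _ _ (hu m)) (hu m) (hadd _ _ h3) h3 ?_
      conv_lhs => rw [e]
      abel
    simp only [h4]
    exact (((lev (L r2 r2)).continuous.tendsto _).comp (hai2 r1 h3)).cauchySeq
  · obtain ⟨r, hr', rfl⟩ := ha
    simp only [hπ _ _ (hu _) (hu _)]
    exact hai2 r hr'

end

end Pool.Agent.Lib.MP_695abf_an
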