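import Pool.Agent.Lib.MP_695abf_an.Diag
import Pool.Agent.Lib.MP_695abf_an.Compl

set_option autoImplicit false

open scoped NNRat Topology
open Filter

namespace Pool.Agent.Lib.MP_695abf_an

section

variable {B : Type} [NormedCommRing B] [NormedAlgebra ℂ B] (θ : Amb →ₐ[ℂ] B)

/-- Images of the monomials of positive degree. -/
def posMon : Set B := (fun m : Mon Idx => θ (mon m)) '' {m | 0 < m.1}

theorem span_mul_mem {x y : B} (hx : x ∈ Submodule.span ℂ (posMon θ))
    (hy : y ∈ Submodule.span ℂ (posMon θ)) : x * y ∈ Submodule.span ℂ (posMon θ) := by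
  have := Submodule.mul_mem_mul hx hy
  rw [Submodule.span_mul_span] at this
  refine Submodule.span_mono ?_ this
  rintro _ ⟨_, ⟨m, hm, rfl⟩, _, ⟨m', _, rfl⟩, rfl⟩
  refine ⟨m + m', lt_of_lt_of_le hm (le_self_add (b := m'.1)), ?_⟩
  simp [mon_add]

/-- The dense subalgebra. -/
noncomputable def sub0 : NonUnitalSubalgebra ℂ B :=
  (Submodule.span ℂ (posMon θ)).toNonUnitalSubalgebra fun _ _ => span_mul_mem θ

/-- The algebra. -/
noncomputable def subA : NonUnitalSubalgebra ℂ B := (sub0 θ).topologicalClosure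

noncomputable instance : NormedSpace ℂ (subA θ) where
  norm_smul_le c x := norm_smul_le c (x : B)

theorem mem_subA {x : B} : x ∈ subA θ ↔ x ∈ closure (Submodule.span ℂ (posMon θ) : Set B) :=
  Iff.rfl

open Classical in
/-- Monomials as elements of the algebra. -/
noncomputable def nu (m : Mon Idx) : subA θ :=
  if h : 0 < m.1 then ⟨θ (mon m), subset_closure (Submodule.subset_span ⟨m, h, rfl⟩)⟩ else 0

theorem coe_nu {m : Mon Idx} (h : 0 < m.1) : (nu θ m : B) = θ (mon m) := by
  simp [nu, h]

theorem coe_spow (a : subA θ) (n : ℕ) : ((spow a n : subA θ) : B) = (a : B) ^ (n + 1) := by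
  induction n with
  | zero => simp [spow]
  | succ n ih => rw [spow, pow_succ, ← ih]; rfl

theorem dense_nu : Dense (Submodule.span ℂ (nu θ '' {m | 0 < m.1}) : Set (subA θ)) := by
  intro a
  rw [closure_subtype]
  refine closure_mono ?_ ((mem_subA θ).mp a.2)
  intro x hx
  induction hx using Submodule.span_induction with
  | mem x hx =>
    obtain ⟨m, hm, rfl⟩ := hx
    exact ⟨nu θ m, Submodule.subset_span ⟨m, hm, rfl⟩, coe_nu θ hm⟩
  | zero => exact ⟨0, Submodule.zero_mem _, rfl⟩
  | add x y _ _ hx hy =>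
    obtain ⟨x', hx', rfl⟩ := hx
    obtain ⟨y', hy', rfl⟩ := hy
    exact ⟨x' + y', Submodule.add_mem _ hx' hy', rfl⟩
  | smul c x _ hx =>
    obtain ⟨x', hx', rfl⟩ := hx
    exact ⟨c • x', Submodule.smul_mem _ _ hx', rfl⟩

end

theorem main : ∃ (A : Type) (_ : NonUnitalNormedCommRing A) (_ : NormedSpace ℂ A)
    (_ : IsScalarTower ℂ A A) (_ : SMulCommClass ℂ A A) (_ : CompleteSpace A),
    Nontrivial A ∧ IsRadical A ∧ Biprojective A := by
  obtain ⟨B, _, _, _, θ, h1, h2, h3⟩ := exists_banach ballSet
    (fun w => Submodule.span_mono (by rintro _ ⟨m, rfl⟩; exact mon_mem m) (span_mon w)) Phi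
    (fun s hs => Phi_ball hs)
  have hcl : IsClosed (subA θ : Set B) := isClosed_closure
  have : CompleteSpace (subA θ) := hcl.completeSpace_coe
  refine ⟨subA θ, inferInstance, inferInstance, inferInstance, inferInstance, this, ?_, ?_, ?_⟩
  · refine ⟨nu θ (1 / 2, 0), 0, fun h => ?_⟩
    have h4 : θ (mon (1 / 2, 0)) = 0 := by
      rw [← coe_nu θ (m := (1 / 2, 0)) (by norm_num), h]; rfl
    have h5 := h3 _ h4
    rw [Phi_mon] at h5
    simp only [if_true, cut, Complex.ofReal_eq_zero] at h5
    norm_num at h5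
  · intro a
    have h4 : (a : B) ∈ closure {x : B | IsNilpotent x} := by
      refine closure_mono ?_ ((mem_subA θ).mp a.2)
      intro x hx
      induction hx using Submodule.span_induction with
      | mem x hx =>
        obtain ⟨m, hm, rfl⟩ := hx
        obtain ⟨N, hN⟩ := exists_nat_ge m.1⁻¹
        refine ⟨N, ?_⟩
        have e : ∀ k : ℕ, mon m ^ k = mon (k • m) := by
          intro k
          induction k with
          | zero => simp [mon_zero]
          | succ k ih => rw [pow_succ, ih, succ_nsmul, mon_add]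
        simp only
        rw [← map_pow, e]
        refine h2 _ fun w => Phi_vanish _ w ?_
        rw [Prod.smul_fst, nsmul_eq_mul]
        rwa [inv_le_iff_one_le_mul₀ hm] at hN
      | zero => exact IsNilpotent.zero
      | add x y _ _ hx hy => exact (Commute.all x y).isNilpotent_add hx hy
      | smul c x _ hx => exact IsNilpotent.smul hx c
    refine (quasinilpotent_of_mem_closure h4).congr fun n => ?_
    rw [← coe_spow]
    rfl
  · refine biprojective_of_model (nu θ) (fun m m' hm hm' => ?_) (fun m hm => ?_) (dense_nu θ)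
      (fun n => ?_) (fun n j ω b h => ?_)
    · apply Subtype.ext
      rw [coe_nu θ (m := m + m') (lt_of_lt_of_le hm (le_self_add (b := m'.1))), mon_add, map_mul, ← coe_nu θ hm, ← coe_nu θ hm']
      rfl
    · change ‖(nu θ m : B)‖ ≤ 1
      rw [coe_nu θ hm]
      exact h1 _ (mon_mem m)
    · change ‖(nu θ (tt n, 0) : B) - nu θ (tt n + tt (n + 1), 0)‖ ≤ _
      rw [coe_nu θ (m := (tt n, 0)) (tt_pos n),
        coe_nu θ (m := (tt n + tt (n + 1), 0)) (lt_of_lt_of_le (tt_pos n) le_self_add)]
      have h4 := h1 _ (vv_mem n)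
      have e : θ (vv n) =
          ((n : ℂ) + 1) • (θ (mon (tt n, 0)) - θ (mon (tt n + tt (n + 1), 0))) := by
        simp only [vv, vpair, bval, map_add, map_smul, neg_smul, map_neg, sub_eq_add_neg,
          smul_add, smul_neg]
      rw [e, norm_smul, norm_nat_add_one] at h4
      rw [le_div_iff₀ (by positivity), mul_comm]
      exact h4
    · have h4 := h1 _ (sval_mem ⟨n, j, ω.2.2, ω.2.1, ω.1, b⟩ h)
      rw [sval_eq] at h4
      have e : ((sv (nu θ) n j ω b : subA θ) : B) = θ (sv mon n j ω b) := by
        have p1 : ∀ g : Mon Idx, 0 < ((if b then (quad j).p else (quad j).q) + g).1 := fun g =>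
          lt_of_lt_of_le (by cases b <;> simp [(quad j).hp, (quad j).hq]) (le_self_add (b := g.1))
        have p2 : ∀ g : Mon Idx, 0 < ((if b then (quad j).p' else (quad j).q') + g).1 := fun g =>
          lt_of_lt_of_le (by cases b <;> simp [(quad j).hp', (quad j).hq'])
            (le_self_add (b := g.1))
        simp only [sv, map_add, map_smul, map_sum, ← coe_nu θ (p1 _), ← coe_nu θ (p2 _)]
        simp
      change ‖((sv (nu θ) n j ω b : subA θ) : B)‖ ≤ 1
      rw [e]
      exact h4

end Pool.Agent.Lib.MP_695abf_an
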