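import Pool.Agent.Lib.MP_695abf_an.Chirp

set_option autoImplicit false

open scoped NNRat Topology
open Filter

namespace Pool.Agent.Lib.MP_695abf_an

/-- Quadruples of monomials of positive degree with equal products. -/
structure Quad where
  /-- first left -/
  p : Mon Idx
  /-- first right -/
  q : Mon Idx
  /-- second left -/
  p' : Mon Idx
  /-- second right -/
  q' : Mon Idx
  hp : 0 < p.1
  hq : 0 < q.1
  hp' : 0 < p'.1
  hq' : 0 < q'.1
  heq : p + q = p' + q'

instance : Countable Quad := by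
  have : Function.Injective (fun x : Quad => (x.p, x.q, x.p', x.q')) := by
    rintro ⟨a, b, c, d, _, _, _, _, _⟩ ⟨a', b', c', d', _, _, _, _, _⟩ h
    simp only [Prod.mk.injEq] at h
    obtain ⟨rfl, rfl, rfl, rfl⟩ := h
    rfl
  exact this.countable

instance : Nonempty Quad := ⟨⟨(1, 0), (1, 0), (1, 0), (1, 0), one_pos, one_pos, one_pos, one_pos, rfl⟩⟩

/-- An enumeration of all quadruples. -/
noncomputable def quad : ℕ → Quad := (exists_surjective_nat Quad).choose

theorem quad_surj : Function.Surjective quad := (exists_surjective_nat Quad).choose_spec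

/-- Index of a special generator. -/
structure Spec where
  /-- level -/
  n : ℕ
  /-- number of the quadruple -/
  j : ℕ
  /-- character -/
  ξ : Fin n → Fin 4
  /-- last character -/
  c : Fin 4
  /-- sign -/
  a : Bool
  /-- side -/
  b : Bool

/-- Label of the chirp. -/
def lab (n j : ℕ) (c : Fin 4) (a : Bool) : ℕ :=
  16 * j + 8 * (n % 2) + 2 * c.val + (if a then 1 else 0)

/-- Sign. -/
def sg (b : Bool) : ℤ := if b then 1 else -1

/-- The two atoms of a special generator. -/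
noncomputable def Spec.atoms (p : Spec) : Atom Idx × Atom Idx :=
  (⟨p.n + 1, if p.b then (quad p.j).p else (quad p.j).q,
      (svec p.n (cset p.n (lab p.n p.j p.c p.a)) p.ξ 1, sg p.b)⟩,
    ⟨(p.n + 1) * Complex.I, if p.b then (quad p.j).p' else (quad p.j).q',
      (svec (p.n + 1) (cset p.n (lab p.n p.j p.c p.a)) (Fin.snoc p.ξ p.c) (sg p.a), sg p.b)⟩)

theorem sg_ne (b : Bool) : sg b ≠ 0 := by cases b <;> simp [sg]

theorem norm_sg (b : Bool) : ‖(sg b : ℂ)‖ = 1 := by cases b <;> simp [sg]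

theorem sg_mul (b : Bool) : (sg b : ℂ) * sg b = 1 := by cases b <;> simp [sg]

theorem norm_nat_add_one (n : ℕ) : ‖(n : ℂ) + 1‖ = n + 1 := by
  exact_mod_cast Complex.norm_natCast (n + 1)

theorem Spec.aok (p : Spec) {n : ℕ} (h : p.n ≤ n) :
    AOk ((n : ℝ) + 1) p.atoms.1 ∧ AOk ((n : ℝ) + 1) p.atoms.2 := by
  have h' : (p.n : ℝ) ≤ n := by exact_mod_cast h
  refine ⟨⟨?_, nrm_svec _ _ _ (by simp), sg_ne _⟩, ⟨?_, nrm_svec _ _ _ (norm_sg _), sg_ne _⟩⟩
  · simp only [Spec.atoms, norm_nat_add_one]; linarith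
  · simp only [Spec.atoms, norm_mul, norm_nat_add_one, Complex.norm_I]; linarith

variable {𝒜 : Type} [CommRing 𝒜] [Algebra ℂ 𝒜]

theorem small_con (μ : Mon Idx → 𝒜) {α θ : ℝ} (hα : 0 ≤ α) {b0 b : Atom Idx} (h0 : AOk α b0)
    (h : AOk α b) (hp : ‖pairing b0.f b.f‖ ≤ θ) : Small μ (α ^ 2 * θ) (con μ b0 b) := by
  apply small_smul
  rw [norm_mul, norm_mul, sq]
  exact mul_le_mul (mul_le_mul h0.1 h.1 (norm_nonneg _) hα) hp (norm_nonneg _) (by positivity)

theorem spec_small (μ : Mon Idx → 𝒜) (p0 p : Spec) (J : ℕ) (hn : p.n ≤ p0.n) (hJ : p0.j ≤ J) :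
    Small μ (4 * ((p0.n : ℝ) + 1) ^ 2 * (1 / 2) ^ (p0.n / 2 ^ (16 * J + 16)))
      (con μ p0.atoms.1 p.atoms.1 + con μ p0.atoms.1 p.atoms.2 +
        (con μ p0.atoms.2 p.atoms.1 + con μ p0.atoms.2 p.atoms.2)) := by
  by_cases hl : lab p0.n p0.j p0.c p0.a = lab p.n p.j p.c p.a
  · have hz : con μ p0.atoms.1 p.atoms.1 + con μ p0.atoms.1 p.atoms.2 +
        (con μ p0.atoms.2 p.atoms.1 + con μ p0.atoms.2 p.atoms.2) = 0 := by
      obtain ⟨n0, j0, ξ0, c0, a0, b0⟩ := p0
      obtain ⟨n, j, ξ, c, a, b⟩ := p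
      simp only at hn hl
      have hc0 := c0.isLt
      have hc := c.isLt
      have hj : j0 = j ∧ n0 % 2 = n % 2 ∧ c0.val = c.val ∧ a0 = a := by
        unfold lab at hl
        cases a0 <;> cases a <;> simp at hl ⊢ <;> omega
      obtain ⟨rfl, hpar, hcc, rfl⟩ := hj
      obtain rfl : c0 = c := Fin.ext hcc
      by_cases hnn : n0 = n
      · subst hnn
        simp only [con, Spec.atoms]
        rw [pairing_svec_ne (show n0 ≠ n0 + 1 by omega),
          pairing_svec_ne (show n0 + 1 ≠ n0 by omega),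
          pairing_svec_diag n0 _ (cset_self _ _) ξ0 ξ c0 _ (sg_mul _)]
        simp only [mul_zero, zero_smul, add_zero, zero_add]
        by_cases hb : sg b0 + sg b = 0
        · have hm : ((if b0 then (quad j0).p else (quad j0).q) +
              if b then (quad j0).p else (quad j0).q) =
              ((if b0 then (quad j0).p' else (quad j0).q') +
              if b then (quad j0).p' else (quad j0).q') := by
            have := (quad j0).heq
            cases b0 <;> cases b <;> simp [sg] at hb ⊢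
            · rw [add_comm, this, add_comm]
            · exact this
          rw [hm, ← add_smul]
          have hI : ∀ x y : ℂ, x * x * y + x * Complex.I * (x * Complex.I) * y = 0 := by
            intro x y
            have : x * Complex.I * (x * Complex.I) = x * x * (Complex.I * Complex.I) := by ring
            rw [this, Complex.I_mul_I]; ring
          rw [hI, zero_smul]
        · simp [pairing, hb]
      · simp only [con, Spec.atoms]
        rw [pairing_svec_ne (show n0 ≠ n by omega), pairing_svec_ne (show n0 ≠ n + 1 by omega),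
          pairing_svec_ne (show n0 + 1 ≠ n by omega),
          pairing_svec_ne (show n0 + 1 ≠ n + 1 by omega)]
        simp
    rw [hz]
    exact small_zero μ (by positivity)
  · have hθ : ((1 : ℝ) / 2) ^ (p0.n / 2 ^ (lab p0.n p0.j p0.c p0.a + 1)) ≤
        (1 / 2) ^ (p0.n / 2 ^ (16 * J + 16)) := by
      refine pow_le_pow_of_le_one (by norm_num) (by norm_num) ?_
      refine Nat.div_le_div_left (Nat.pow_le_pow_right (by norm_num) ?_) (by positivity)
      have := p0.c.isLt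
      unfold lab
      split_ifs <;> omega
    have a0 := p0.aok le_rfl
    have a1 := p.aok hn
    have hα : (0 : ℝ) ≤ (p0.n : ℝ) + 1 := by positivity
    have s1 := small_con μ hα a0.1 a1.1
      ((pairing_svec_small le_rfl hl _ _ (by simp) (by simp) _ _).trans hθ)
    have s2 := small_con μ hα a0.1 a1.2
      ((pairing_svec_small le_rfl hl _ _ (by simp) (norm_sg _) _ _).trans hθ)
    have s3 := small_con μ hα a0.2 a1.1
      ((pairing_svec_small (Nat.le_succ _) hl _ _ (norm_sg _) (by simp) _ _).trans hθ)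
    have s4 := small_con μ hα a0.2 a1.2
      ((pairing_svec_small (Nat.le_succ _) hl _ _ (norm_sg _) (norm_sg _) _ _).trans hθ)
    have := (s1.add s2).add (s3.add s4)
    have e : 4 * ((p0.n : ℝ) + 1) ^ 2 * (1 / 2) ^ (p0.n / 2 ^ (16 * J + 16)) =
        ((p0.n : ℝ) + 1) ^ 2 * (1 / 2) ^ (p0.n / 2 ^ (16 * J + 16)) +
        ((p0.n : ℝ) + 1) ^ 2 * (1 / 2) ^ (p0.n / 2 ^ (16 * J + 16)) +
        (((p0.n : ℝ) + 1) ^ 2 * (1 / 2) ^ (p0.n / 2 ^ (16 * J + 16)) +
        ((p0.n : ℝ) + 1) ^ 2 * (1 / 2) ^ (p0.n / 2 ^ (16 * J + 16))) := by ring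
    rw [e]
    exact this

theorem exists_deg_bound (J : ℕ) : ∃ E : ℕ, 0 < E ∧ ∀ j ≤ J, 1 ≤ E * (quad j).p.1 ∧
    1 ≤ E * (quad j).q.1 ∧ 1 ≤ E * (quad j).p'.1 ∧ 1 ≤ E * (quad j).q'.1 := by
  have key : ∀ x : ℚ≥0, 0 < x → ∀ᶠ E : ℕ in atTop, 1 ≤ E * x := by
    intro x hx
    obtain ⟨N, hN⟩ := exists_nat_ge x⁻¹
    filter_upwards [eventually_ge_atTop N] with E hE
    have : x⁻¹ ≤ E := hN.trans (by exact_mod_cast hE)
    rwa [inv_le_iff_one_le_mul₀ hx] at this
  have : ∀ᶠ E : ℕ in atTop, 0 < E ∧ ∀ j ∈ Finset.range (J + 1), 1 ≤ E * (quad j).p.1 ∧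
      1 ≤ E * (quad j).q.1 ∧ 1 ≤ E * (quad j).p'.1 ∧ 1 ≤ E * (quad j).q'.1 := by
    refine (eventually_gt_atTop 0).and ((Finset.eventually_all _).mpr fun j _ => ?_)
    exact (key _ (quad j).hp).and ((key _ (quad j).hq).and
      ((key _ (quad j).hp').and (key _ (quad j).hq')))
  obtain ⟨E, hE, h⟩ := this.exists
  exact ⟨E, hE, fun j hj => h j (Finset.mem_range.mpr (by omega))⟩

theorem exists_threshold (C : ℝ) (k m : ℕ) (hm : 0 < m) :
    ∃ n0 : ℕ, ∀ n ≥ n0, C * ((n : ℝ) + 1) ^ k * (1 / 2) ^ (n / m) ≤ 1 := by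
  have h1 : Tendsto (fun q : ℕ => ((q + 1 : ℕ) : ℝ) ^ k / 2 ^ (q + 1)) atTop (𝓝 0) :=
    (tendsto_pow_const_div_const_pow_of_one_lt k (by norm_num : (1 : ℝ) < 2)).comp
      (tendsto_add_atTop_nat 1)
  have h2 : Tendsto (fun n : ℕ => n / m) atTop atTop := Nat.tendsto_div_const_atTop hm.ne'
  have h3 := (h1.comp h2).const_mul (|C| * (m : ℝ) ^ k * 2)
  rw [mul_zero] at h3
  obtain ⟨n0, hn0⟩ := eventually_atTop.mp (h3.eventually (ge_mem_nhds one_pos))
  refine ⟨n0, fun n hn => le_trans ?_ (hn0 n hn)⟩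
  simp only [Function.comp]
  have h4 : (n : ℝ) + 1 ≤ m * ((n / m + 1 : ℕ) : ℝ) := by
    have := Nat.lt_mul_div_succ n hm
    exact_mod_cast this
  have h5 : ((n : ℝ) + 1) ^ k ≤ (m : ℝ) ^ k * ((n / m + 1 : ℕ) : ℝ) ^ k := by
    rw [← mul_pow]
    exact pow_le_pow_left₀ (by positivity) h4 k
  have h6 : |C| * (m : ℝ) ^ k * 2 * (((n / m + 1 : ℕ) : ℝ) ^ k / 2 ^ (n / m + 1)) =
      |C| * ((m : ℝ) ^ k * ((n / m + 1 : ℕ) : ℝ) ^ k) * (1 / 2) ^ (n / m) := by
    rw [pow_succ, one_div, inv_pow]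
    field_simp
  rw [h6]
  refine mul_le_mul_of_nonneg_right ?_ (by positivity)
  exact mul_le_mul (le_abs_self C) h5 (by positivity) (abs_nonneg C)

/-- Degree bound. -/
noncomputable def degE (J : ℕ) : ℕ := (exists_deg_bound J).choose

/-- Activation threshold. -/
noncomputable def thr (J : ℕ) : ℕ :=
  (exists_threshold (2 ^ degE J * (8 * ((degE J : ℝ) + 1) ^ 2 * (2 * degE J + 1) ^ degE J))
    (degE J + 2) (2 ^ (16 * J + 16)) (by positivity)).choose

theorem exists_max_list {β : Type} (f : β → ℕ) (L : List β) (hL : L ≠ []) :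
    ∃ p ∈ L, ∀ q ∈ L, f q ≤ f p := by
  classical
  obtain ⟨p, hp, h⟩ := Finset.exists_max_image L.toFinset f (by
    simpa [List.toFinset_nonempty_iff] using hL)
  exact ⟨p, List.mem_toFinset.mp hp, fun q hq => h q (List.mem_toFinset.mpr hq)⟩

theorem pairs_vanish {μ : Mon Idx → 𝒜} (hμ : ∀ m m', μ (m + m') = μ m * μ m')
    (Λ : 𝒜 →ₗ[ℂ] ℂ) (hz : ∀ (m : Mon Idx) (w : 𝒜), 1 ≤ m.1 → Λ (μ m * w) = 0) (E : ℕ) (hE : 0 < E)
    (m : Mon Idx) (Ls : List (Atom Idx × Atom Idx))
    (h : ∀ p ∈ Ls, 1 ≤ E * p.1.m.1 ∧ 1 ≤ E * p.2.m.1) (hl : E ≤ Ls.length) :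
    Λ (μ m * pr (pval μ) Ls) = 0 := by
  have := choice_bound (aval μ) (fun b => 1 ≤ E * b.m.1) Ls
    (Λ.comp (LinearMap.mulLeft ℂ (μ m))).toAddMonoidHom 0 h (fun La hla hLa => by
      simp only [LinearMap.toAddMonoidHom_coe, LinearMap.comp_apply, LinearMap.mulLeft_apply]
      rw [atoms_prod hμ, map_smul, hz]
      · simp
      · have key : ∀ L : List (Atom Idx), (∀ b ∈ L, 1 ≤ E * b.m.1) →
            (L.length : ℚ≥0) ≤ E * (L.map Atom.m).sum.1 := by
          intro L
          induction L with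
          | nil => simp
          | cons b L ih =>
            intro hL
            have h1 := hL b (by simp)
            have h2 := ih fun b' hb' => hL b' (by simp [hb'])
            simp only [List.length_cons, List.map_cons, List.sum_cons, Prod.fst_add, mul_add]
            push_cast
            rw [add_comm]
            exact add_le_add h1 h2
        have h3 := key La hLa
        have h4 : (E : ℚ≥0) ≤ La.length := by exact_mod_cast hla ▸ hl
        have h5 : (0 : ℚ≥0) < E := by exact_mod_cast hE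
        have h6 : 1 ≤ (La.map Atom.m).sum.1 := by
          have : (E : ℚ≥0) * 1 ≤ E * (La.map Atom.m).sum.1 := by
            rw [mul_one]; exact h4.trans h3
          exact le_of_mul_le_mul_left this h5
        simp only [Prod.fst_add]
        exact h6.trans le_add_self)
  rw [mul_zero, norm_le_zero_iff] at this
  exact this

/-- Products of active special generators are bounded. -/
theorem spec_bound {μ : Mon Idx → 𝒜} (hμ : ∀ m m', μ (m + m') = μ m * μ m')
    (Λ : 𝒜 →ₗ[ℂ] ℂ) (h0 : ∀ m : Mon Idx, m.2 ≠ 0 → Λ (μ m) = 0) (h1 : ∀ m, ‖Λ (μ m)‖ ≤ 1)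
    (hz : ∀ (m : Mon Idx) (w : 𝒜), 1 ≤ m.1 → Λ (μ m * w) = 0)
    (m : Mon Idx) (Ls : List Spec) (h : ∀ p ∈ Ls, thr p.j ≤ p.n) :
    ‖Λ (μ m * pr (fun p : Spec => pval μ p.atoms) Ls)‖ ≤ 1 := by
  by_cases hL : Ls = []
  · subst hL; simpa using h1 m
  obtain ⟨p0, hp0, hmax⟩ := exists_max_list Spec.n Ls hL
  obtain ⟨p1, hp1, hmaxj⟩ := exists_max_list Spec.j Ls hL
  set J := p1.j
  obtain ⟨hE, hdeg⟩ := (exists_deg_bound J).choose_spec
  change 0 < degE J at hE
  change ∀ j ≤ J, 1 ≤ degE J * (quad j).p.1 ∧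
    1 ≤ degE J * (quad j).q.1 ∧ 1 ≤ degE J * (quad j).p'.1 ∧ 1 ≤ degE J * (quad j).q'.1 at hdeg
  have hthr := (exists_threshold
    (2 ^ degE J * (8 * ((degE J : ℝ) + 1) ^ 2 * (2 * degE J + 1) ^ degE J))
    (degE J + 2) (2 ^ (16 * J + 16)) (by positivity)).choose_spec p0.n
      ((h p1 hp1).trans (hmax p1 hp1))
  have e0 : ∀ L : List Spec, pr (fun p : Spec => pval μ p.atoms) L =
      pr (pval μ) (L.map Spec.atoms) := fun L => by rw [pr_map]; rfl
  by_cases hl : degE J ≤ Ls.length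
  · rw [e0, pairs_vanish hμ Λ hz (degE J) hE m _ _ (by simpa using hl)]
    · simp
    · intro p hp
      obtain ⟨p', hp', rfl⟩ := List.mem_map.mp hp
      have := hdeg p'.j (hmaxj p' hp')
      simp only [Spec.atoms]
      cases p'.b <;> simp [this]
  obtain ⟨L1, L2, rfl⟩ := List.append_of_mem hp0
  have e1 : pr (fun p : Spec => pval μ p.atoms) (L1 ++ p0 :: L2) =
      pval μ p0.atoms * pr (pval μ) ((L1 ++ L2).map Spec.atoms) := by
    rw [← e0, pr_append, pr_append, pr_cons]; ring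
  have hsub : ∀ p ∈ L1 ++ L2, p ∈ L1 ++ p0 :: L2 := by
    intro p hp
    rcases List.mem_append.mp hp with hp | hp <;> simp [hp]
  have hθ : ((1 : ℝ) / 2) ^ p0.n ≤ (1 / 2) ^ (p0.n / 2 ^ (16 * J + 16)) :=
    pow_le_pow_of_le_one (by norm_num) (by norm_num) (Nat.div_le_self _ _)
  have hθ' : ((1 : ℝ) / 2) ^ (p0.n + 1) ≤ (1 / 2) ^ (p0.n / 2 ^ (16 * J + 16)) :=
    pow_le_pow_of_le_one (by norm_num) (by norm_num) ((Nat.div_le_self _ _).trans (Nat.le_succ _))
  rw [e1]
  refine (top_bound hμ Λ h0 h1 (α := (p0.n : ℝ) + 1) (by simp) (degE J) m p0.atoms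
    (p0.aok le_rfl) ((1 / 2) ^ (p0.n / 2 ^ (16 * J + 16))) (by positivity)
    (fun i => (norm_svec_apply _ _ _ (by simp) i).trans hθ)
    (fun i => (norm_svec_apply _ _ _ (norm_sg _) i).trans hθ') _ ?_ ?_ ?_).trans hthr
  · intro p hp
    obtain ⟨p', hp', rfl⟩ := List.mem_map.mp hp
    exact p'.aok (hmax p' (hsub p' hp'))
  · intro p hp
    obtain ⟨p', hp', rfl⟩ := List.mem_map.mp hp
    exact spec_small μ p0 p' J (hmax p' (hsub p' hp')) (hmaxj p0 hp0)
  · simp at hl ⊢
    omega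

end Pool.Agent.Lib.MP_695abf_an
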