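import Mathlib

set_option autoImplicit false

namespace Pool.Agent.Lib.MP_695abf_an

section Generic

variable {𝒜 : Type} [CommRing 𝒜] {β : Type}

/-- Product of the values of a list. -/
def pr (v : β → 𝒜) (L : List β) : 𝒜 := (L.map v).prod

@[simp] theorem pr_nil (v : β → 𝒜) : pr v [] = 1 := rfl

@[simp] theorem pr_cons (v : β → 𝒜) (b : β) (L : List β) : pr v (b :: L) = v b * pr v L := by
  simp [pr]

theorem pr_append (v : β → 𝒜) (L L' : List β) : pr v (L ++ L') = pr v L * pr v L' := by
  simp [pr]

/-- Formal derivative of the product: replace one factor `v b` by `c b`. -/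
def der (v c : β → 𝒜) : List β → 𝒜
  | [] => 0
  | b :: L => c b * pr v L + v b * der v c L

@[simp] theorem der_nil (v c : β → 𝒜) : der v c [] = 0 := rfl

@[simp] theorem der_cons (v c : β → 𝒜) (b : β) (L : List β) :
    der v c (b :: L) = c b * pr v L + v b * der v c L := rfl

theorem der_add (v c c' : β → 𝒜) (L : List β) :
    der v (fun b => c b + c' b) L = der v c L + der v c' L := by
  induction L with
  | nil => simp
  | cons b L ih => simp only [der_cons, ih]; ring

theorem der_mul (v c : β → 𝒜) (w : 𝒜) (L : List β) :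
    der v (fun b => w * c b) L = w * der v c L := by
  induction L with
  | nil => simp
  | cons b L ih => simp only [der_cons, ih]; ring

theorem der_sum {ι : Type} (s : Finset ι) (v : β → 𝒜) (c : ι → β → 𝒜) (L : List β) :
    der v (fun b => ∑ i ∈ s, c i b) L = ∑ i ∈ s, der v (c i) L := by
  induction L with
  | nil => simp
  | cons b L ih => simp only [der_cons, ih, Finset.sum_add_distrib, Finset.sum_mul, Finset.mul_sum]

theorem der_map {γ : Type} (f : γ → β) (v c : β → 𝒜) (L : List γ) :
    der v c (L.map f) = der (v ∘ f) (c ∘ f) L := by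
  induction L with
  | nil => simp
  | cons b L ih => simp [ih, pr]

theorem pr_map {γ : Type} (f : γ → β) (v : β → 𝒜) (L : List γ) :
    pr v (L.map f) = pr (v ∘ f) L := by
  simp [pr]

/-- Bound for the formal derivative. -/
theorem der_bound (v c : β → 𝒜) (Q : β → Prop) (Λ : 𝒜 →+ ℂ) (K : ℕ) (ε : ℝ)
    (h : ∀ (b : β) (L' : List β), Q b → (∀ q ∈ L', Q q) → L'.length < K →
      ‖Λ (c b * pr v L')‖ ≤ ε) :
    ∀ (L L0 : List β), (∀ q ∈ L, Q q) → (∀ q ∈ L0, Q q) → L0.length + L.length ≤ K →
      ‖Λ (pr v L0 * der v c L)‖ ≤ L.length * ε := by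
  intro L
  induction L with
  | nil => intro L0 _ _ _; simp
  | cons b L ih =>
    intro L0 hL hL0 hK
    have e : pr v L0 * der v c (b :: L) =
        c b * pr v (L0 ++ L) + pr v (L0 ++ [b]) * der v c L := by
      simp only [der_cons, pr_append, pr_cons, pr_nil]; ring
    rw [e, map_add]
    have h1 := h b (L0 ++ L) (hL b (by simp))
      (by
        intro q hq
        rcases List.mem_append.mp hq with hq | hq
        · exact hL0 q hq
        · exact hL q (by simp [hq]))
      (by simp at hK ⊢; omega)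
    have h2 := ih (L0 ++ [b]) (fun q hq => hL q (by simp [hq]))
      (by
        intro q hq
        rcases List.mem_append.mp hq with hq | hq
        · exact hL0 q hq
        · exact hL q (by simp at hq; simp [hq]))
      (by simp at hK ⊢; omega)
    refine (norm_add_le _ _).trans ?_
    simp only [List.length_cons, Nat.cast_add, Nat.cast_one]
    linarith

/-- Multilinear expansion of a product of two-term sums. -/
theorem choice_bound (v : β → 𝒜) (P : β → Prop) :
    ∀ (Ls : List (β × β)) (Λ : 𝒜 →+ ℂ) (ε : ℝ), (∀ p ∈ Ls, P p.1 ∧ P p.2) →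
      (∀ La : List β, La.length = Ls.length → (∀ b ∈ La, P b) → ‖Λ (pr v La)‖ ≤ ε) →
      ‖Λ (pr (fun p : β × β => v p.1 + v p.2) Ls)‖ ≤ 2 ^ Ls.length * ε := by
  intro Ls
  induction Ls with
  | nil => intro Λ ε _ h; simpa using h [] rfl (by simp)
  | cons p Ls ih =>
    intro Λ ε hP h
    have key : ∀ b, P b → ‖Λ (v b * pr (fun p : β × β => v p.1 + v p.2) Ls)‖ ≤
        2 ^ Ls.length * ε := by
      intro b hb
      have := ih (Λ.comp (AddMonoidHom.mulLeft (v b))) ε (fun q hq => hP q (by simp [hq]))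
        (fun La hl hLa => by
          have := h (b :: La) (by simp [hl]) (by
            intro q hq
            rcases List.mem_cons.mp hq with rfl | hq
            · exact hb
            · exact hLa q hq)
          simpa using this)
      simpa using this
    have h1 := key p.1 (hP p (by simp)).1
    have h2 := key p.2 (hP p (by simp)).2
    rw [pr_cons, add_mul, map_add]
    refine (norm_add_le _ _).trans ?_
    rw [List.length_cons, pow_succ]
    linarith

/-- A dual number with given components. -/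
def dn (x y : 𝒜) : DualNumber 𝒜 := (x, y)

@[simp] theorem fst_dn (x y : 𝒜) : (dn x y).fst = x := rfl

@[simp] theorem snd_dn (x y : 𝒜) : (dn x y).snd = y := rfl

theorem fst_pr_dual (v c : β → 𝒜) (L : List β) :
    (pr (fun b => dn (v b) (c b)) L).fst = pr v L := by
  induction L with
  | nil => simp
  | cons b L ih => simp [ih]

theorem snd_pr_dual (v c : β → 𝒜) (L : List β) :
    (pr (fun b => dn (v b) (c b)) L).snd = der v c L := by
  induction L with
  | nil => simp
  | cons b L ih => simp [ih, fst_pr_dual, add_comm]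

/-- Multilinear expansion for an approximate integration by parts formula. -/
theorem choice_der (v c : β → 𝒜) (P : β → Prop) (Ls : List (β × β)) (Λ Λ' : 𝒜 →+ ℂ) (ε : ℝ)
    (hP : ∀ p ∈ Ls, P p.1 ∧ P p.2)
    (h : ∀ La : List β, La.length = Ls.length → (∀ b ∈ La, P b) →
      ‖Λ (pr v La) - Λ' (der v c La)‖ ≤ ε) :
    ‖Λ (pr (fun p : β × β => v p.1 + v p.2) Ls) -
      Λ' (der (fun p : β × β => v p.1 + v p.2) (fun p : β × β => c p.1 + c p.2) Ls)‖ ≤
      2 ^ Ls.length * ε := by
  let Θ : DualNumber 𝒜 →+ ℂ :=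
    { toFun := fun x => Λ x.fst - Λ' x.snd
      map_zero' := by simp
      map_add' := fun x y => by simp; ring }
  have := choice_bound (fun b => dn (v b) (c b)) P Ls Θ ε hP
    (fun La hl hLa => by
      have := h La hl hLa
      simpa [Θ, fst_pr_dual, snd_pr_dual] using this)
  have e : (fun p : β × β => dn (v p.1) (c p.1) + dn (v p.2) (c p.2)) =
      fun p : β × β => dn (v p.1 + v p.2) (c p.1 + c p.2) := by
    ext p <;> simp
  rw [e] at this
  simpa [Θ, fst_pr_dual, snd_pr_dual] using this

end Generic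

section Wick

variable {ι : Type} [DecidableEq ι] {𝒜 : Type} [CommRing 𝒜] [Algebra ℂ 𝒜]

/-- A linear form: coefficient vector and exponent. -/
abbrev Form (ι : Type) : Type := (ι →₀ ℂ) × ℤ

/-- Squared Euclidean norm. -/
noncomputable def nrm (a : ι →₀ ℂ) : ℝ := ∑ i ∈ a.support, ‖a i‖ ^ 2

/-- Value of a form. -/
noncomputable def fval (e : (ι →₀ ℤ) → 𝒜) (f : Form ι) : 𝒜 :=
  Finsupp.linearCombination ℂ (fun i => e (Finsupp.single i f.2)) f.1

/-- Remove the coordinate `i`. -/
noncomputable def er (i : ι) (f : Form ι) : Form ι := (f.1.erase i, f.2)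

omit [DecidableEq ι] in
theorem fval_eq (e : (ι →₀ ℤ) → 𝒜) (f : Form ι) :
    fval e f = ∑ i ∈ f.1.support, f.1 i • e (Finsupp.single i f.2) := by
  simp [fval, Finsupp.linearCombination_apply, Finsupp.sum]

omit [DecidableEq ι] in
theorem fval_er (e : (ι →₀ ℤ) → 𝒜) (i : ι) (f : Form ι) :
    fval e f = fval e (er i f) + f.1 i • e (Finsupp.single i f.2) := by
  unfold fval er
  conv_lhs => rw [← Finsupp.erase_add_single i f.1]
  simp

omit [DecidableEq ι] in
theorem nrm_nonneg (a : ι →₀ ℂ) : 0 ≤ nrm a := Finset.sum_nonneg fun _ _ => by positivity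

theorem nrm_er (i : ι) (f : Form ι) : nrm (er i f).1 ≤ nrm f.1 := by
  unfold nrm er
  simp only [Finsupp.support_erase]
  calc ∑ j ∈ f.1.support.erase i, ‖(f.1.erase i) j‖ ^ 2
      = ∑ j ∈ f.1.support.erase i, ‖f.1 j‖ ^ 2 := by
        refine Finset.sum_congr rfl fun j hj => ?_
        rw [Finsupp.erase_ne (Finset.ne_of_mem_erase hj)]
    _ ≤ _ := Finset.sum_le_sum_of_subset_of_nonneg (Finset.erase_subset _ _)
        fun _ _ _ => by positivity

omit [DecidableEq ι] in
theorem sum_sq_le_nrm (a : ι →₀ ℂ) (s : Finset ι) : ∑ i ∈ s, ‖a i‖ ^ 2 ≤ nrm a := by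
  classical
  unfold nrm
  rw [← Finset.sum_filter_add_sum_filter_not s (fun i => i ∈ a.support)]
  have h0 : ∑ i ∈ s.filter (fun i => ¬ i ∈ a.support), ‖a i‖ ^ 2 = 0 := by
    refine Finset.sum_eq_zero fun i hi => ?_
    have := (Finset.mem_filter.mp hi).2
    simp only [Finsupp.mem_support_iff, not_not] at this
    simp [this]
  rw [h0, add_zero]
  exact Finset.sum_le_sum_of_subset_of_nonneg (fun i hi => (Finset.mem_filter.mp hi).2)
    fun _ _ _ => by positivity

omit [DecidableEq ι] in
theorem norm_le_one_of_nrm {a : ι →₀ ℂ} (h : nrm a ≤ 1) (i : ι) : ‖a i‖ ≤ 1 := by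
  have := sum_sq_le_nrm a {i}
  simp only [Finset.sum_singleton] at this
  nlinarith [norm_nonneg (a i)]

/-- All forms of the list have norm at most one. -/
def Good (L : List (Form ι)) : Prop := ∀ f ∈ L, nrm f.1 ≤ 1 ∧ f.2 ≠ 0

theorem good_er {L : List (Form ι)} (h : Good L) (i : ι) : Good (L.map (er i)) := by
  intro f hf
  obtain ⟨f', hf', rfl⟩ := List.mem_map.mp hf
  exact ⟨(nrm_er i f').trans (h f' hf').1, (h f' hf').2⟩

omit [DecidableEq ι] in
theorem good_append {L L' : List (Form ι)} (h : Good L) (h' : Good L') : Good (L ++ L') := by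
  intro f hf
  rcases List.mem_append.mp hf with hf | hf
  · exact h f hf
  · exact h' f hf

omit [DecidableEq ι] in
theorem good_cons {f : Form ι} {L : List (Form ι)} :
    Good (f :: L) ↔ (nrm f.1 ≤ 1 ∧ f.2 ≠ 0) ∧ Good L := by
  unfold Good
  exact List.forall_mem_cons

/-- Sum of the moduli of the `i`-th coordinates. -/
noncomputable def csum (i : ι) (L : List (Form ι)) : ℝ := (L.map fun f => ‖f.1 i‖).sum

omit [DecidableEq ι] in
theorem csum_nonneg (i : ι) (L : List (Form ι)) : 0 ≤ csum i L :=
  List.sum_nonneg (by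
    intro x hx
    obtain ⟨f, _, rfl⟩ := List.mem_map.mp hx
    exact norm_nonneg _)

omit [DecidableEq ι] in
theorem csum_cons (i : ι) (f : Form ι) (L : List (Form ι)) :
    csum i (f :: L) = ‖f.1 i‖ + csum i L := by simp [csum]

omit [DecidableEq ι] in
theorem csum_append (i : ι) (L L' : List (Form ι)) :
    csum i (L ++ L') = csum i L + csum i L' := by simp [csum]

omit [DecidableEq ι] in
theorem sum_mul_csum (s : Finset ι) (w : ι → ℝ) (c : ℝ)
    (hw : ∀ a : ι →₀ ℂ, nrm a ≤ 1 → ∑ i ∈ s, w i * ‖a i‖ ≤ c) (L : List (Form ι)) (hL : Good L) :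
    ∑ i ∈ s, w i * csum i L ≤ L.length * c := by
  induction L with
  | nil => simp [csum]
  | cons f L ih =>
    rw [good_cons] at hL
    simp only [csum_cons, mul_add, Finset.sum_add_distrib, List.length_cons, Nat.cast_add,
      Nat.cast_one]
    have := ih hL.2
    have := hw f.1 hL.1.1
    linarith

omit [DecidableEq ι] in
theorem sum_mul_le_one (s : Finset ι) {a b : ι →₀ ℂ} (ha : nrm a ≤ 1) (hb : nrm b ≤ 1) :
    ∑ i ∈ s, ‖a i‖ * ‖b i‖ ≤ 1 := by
  have h1 := sum_sq_le_nrm a s
  have h2 := sum_sq_le_nrm b s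
  have : ∑ i ∈ s, ‖a i‖ * ‖b i‖ ≤ ∑ i ∈ s, (‖a i‖ ^ 2 + ‖b i‖ ^ 2) / 2 :=
    Finset.sum_le_sum fun i _ => by nlinarith [sq_nonneg (‖a i‖ - ‖b i‖)]
  rw [← Finset.sum_div, Finset.sum_add_distrib] at this
  linarith

omit [DecidableEq ι] in
theorem sum_csum_sq (s : Finset ι) (L : List (Form ι)) (hL : Good L) :
    ∑ i ∈ s, csum i L * csum i L ≤ L.length * L.length := by
  refine sum_mul_csum s (fun i => csum i L) L.length (fun a ha => ?_) L hL
  have := sum_mul_csum s (fun i => ‖a i‖) 1 (fun b hb => sum_mul_le_one s ha hb) L hL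
  simpa [mul_comm] using this

variable {e : (ι →₀ ℤ) → 𝒜} (he : ∀ g g', e (g + g') = e g * e g')
include he

omit [DecidableEq ι] in
theorem T_cons (Ψ : 𝒜 →ₗ[ℂ] ℂ) (g : ι →₀ ℤ) (f : Form ι) (w : 𝒜) :
    Ψ (e g * (fval e f * w)) =
      ∑ i ∈ f.1.support, f.1 i * Ψ (e (g + Finsupp.single i f.2) * w) := by
  rw [fval_eq, Finset.sum_mul, Finset.mul_sum, map_sum]
  refine Finset.sum_congr rfl fun i _ => ?_
  rw [he, ← smul_eq_mul (f.1 i), ← map_smul]
  congr 1
  simp [mul_assoc]

/-- Too large support forces vanishing. -/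
theorem vanish_card (Ψ : 𝒜 →ₗ[ℂ] ℂ) (h0 : ∀ g, g ≠ 0 → Ψ (e g) = 0) :
    ∀ (L : List (Form ι)) (g : ι →₀ ℤ), L.length < g.support.card →
      Ψ (e g * pr (fval e) L) = 0 := by
  intro L
  induction L with
  | nil =>
    intro g hg
    rw [pr_nil, mul_one]
    apply h0
    rintro rfl
    simp at hg
  | cons f L ih =>
    intro g hg
    rw [pr_cons, T_cons he]
    refine Finset.sum_eq_zero fun i _ => ?_
    rw [ih, mul_zero]
    have hsub : g.support ⊆ insert i (g + Finsupp.single i f.2).support := by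
      intro j hj
      by_cases hji : j = i
      · simp [hji]
      · simp only [Finset.mem_insert, hji, false_or, Finsupp.mem_support_iff, Finsupp.add_apply,
          Finsupp.single_eq_of_ne hji, add_zero]
        exact Finsupp.mem_support_iff.mp hj
    have := (Finset.card_le_card hsub).trans (Finset.card_insert_le _ _)
    simp at hg
    omega

/-- An uncompensated coordinate forces vanishing. -/
theorem vanish_coord (Ψ : 𝒜 →ₗ[ℂ] ℂ) (h0 : ∀ g, g ≠ 0 → Ψ (e g) = 0) (i : ι) :
    ∀ (L : List (Form ι)) (g : ι →₀ ℤ), g i ≠ 0 →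
      Ψ (e g * pr (fval e) (L.map (er i))) = 0 := by
  intro L
  induction L with
  | nil =>
    intro g hg
    rw [List.map_nil, pr_nil, mul_one]
    apply h0
    rintro rfl
    simp at hg
  | cons f L ih =>
    intro g hg
    rw [List.map_cons, pr_cons, T_cons he]
    refine Finset.sum_eq_zero fun j hj => ?_
    rw [ih, mul_zero]
    have hji : i ≠ j := by
      rintro rfl
      simp [er] at hj
    simpa [Finsupp.single_eq_of_ne hji] using hg

/-- Effect of removing one coordinate. -/
theorem erase_diff (i : ι) (B : ℝ) :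
    ∀ (L : List (Form ι)) (Ψ : 𝒜 →ₗ[ℂ] ℂ) (g : ι →₀ ℤ), Good L →
      (∀ (g' : ι →₀ ℤ) (L' : List (Form ι)), Good L' → L'.length < L.length →
        ‖Ψ (e g' * pr (fval e) L')‖ ≤ B) →
      ‖Ψ (e g * pr (fval e) L) - Ψ (e g * pr (fval e) (L.map (er i)))‖ ≤ csum i L * B := by
  intro L
  induction L with
  | nil => intro Ψ g _ _; simp [csum]
  | cons f L ih =>
    intro Ψ g hL hB
    rw [good_cons] at hL
    have h1 := hB (g + Finsupp.single i f.2) L hL.2 (by simp)
    have h2 := ih (Ψ.comp (LinearMap.mulLeft ℂ (fval e (er i f)))) g hL.2 (fun g' L' hL' hl => by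
      have := hB g' (er i f :: L') (good_cons.mpr ⟨⟨(nrm_er i f).trans hL.1.1, hL.1.2⟩, hL'⟩)
        (by simpa using hl)
      simp only [pr_cons] at this
      simp only [LinearMap.comp_apply, LinearMap.mulLeft_apply]
      rwa [mul_left_comm])
    simp only [LinearMap.comp_apply, LinearMap.mulLeft_apply] at h2
    have e1 : Ψ (e g * pr (fval e) (f :: L)) - Ψ (e g * pr (fval e) ((f :: L).map (er i))) =
        f.1 i * Ψ (e (g + Finsupp.single i f.2) * pr (fval e) L) +
          (Ψ (fval e (er i f) * (e g * pr (fval e) L)) -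
            Ψ (fval e (er i f) * (e g * pr (fval e) (L.map (er i))))) := by
      rw [List.map_cons, pr_cons, pr_cons, fval_er e i f, he, ← smul_eq_mul (f.1 i), ← map_smul,
        ← map_sub, ← map_sub, ← map_add]
      congr 1
      simp only [Algebra.smul_def]
      ring
    rw [e1, csum_cons]
    refine (norm_add_le _ _).trans ?_
    rw [norm_mul, add_mul]
    have := mul_le_mul_of_nonneg_left h1 (norm_nonneg (f.1 i))
    linarith

/-- A priori bound. -/
theorem wick_bound (Ψ : 𝒜 →ₗ[ℂ] ℂ) (h0 : ∀ g, g ≠ 0 → Ψ (e g) = 0) (h1 : ∀ g, ‖Ψ (e g)‖ ≤ 1) :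
    ∀ (K : ℕ) (g : ι →₀ ℤ) (L : List (Form ι)), Good L → L.length ≤ K →
      ‖Ψ (e g * pr (fval e) L)‖ ≤ (2 * K + 1) ^ K := by
  intro K
  induction K with
  | zero =>
    intro g L _ hl
    have : L = [] := List.length_eq_zero_iff.mp (by omega)
    subst this
    simpa using h1 g
  | succ K ih =>
    intro g L hL hl
    have hmono : (2 * K + 1 : ℝ) ^ K * (2 * K + 1) ≤ (2 * ((K + 1 : ℕ) : ℝ) + 1) ^ (K + 1) := by
      rw [← pow_succ]
      apply pow_le_pow_left₀ (by positivity)
      push_cast; linarith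
    have hB : (0 : ℝ) ≤ (2 * K + 1 : ℝ) ^ K := by positivity
    cases L with
    | nil =>
      refine (ih g [] hL (by simp)).trans (le_trans ?_ hmono)
      nlinarith [(Nat.cast_nonneg K : (0 : ℝ) ≤ K)]
    | cons f L =>
      rw [good_cons] at hL
      have hl' : L.length ≤ K := by simpa using hl
      by_cases hc : (f :: L).length < g.support.card
      · rw [vanish_card he Ψ h0 _ _ hc, norm_zero]; positivity
      have hc' : (g.support.card : ℝ) ≤ K + 1 := by
        have : g.support.card ≤ K + 1 := by simp at hc; omega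
        exact_mod_cast this
      set B : ℝ := (2 * K + 1 : ℝ) ^ K with hBdef
      rw [pr_cons, T_cons he]
      have hs := hL.1.2
      have hterm : ∀ i ∈ f.1.support,
          ‖f.1 i * Ψ (e (g + Finsupp.single i f.2) * pr (fval e) L)‖ ≤
            (if i ∈ g.support then B else 0) + ‖f.1 i‖ * csum i L * B := by
        intro i _
        have hd := erase_diff he i B L Ψ (g + Finsupp.single i f.2) hL.2
          (fun g' L' hL' hl2 => ih g' L' hL' (by omega))
        have hn := norm_le_one_of_nrm hL.1.1 i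
        have hn0 := norm_nonneg (f.1 i)
        rw [norm_mul]
        split_ifs with hi
        · have := ih (g + Finsupp.single i f.2) L hL.2 hl'
          have h3 : 0 ≤ ‖f.1 i‖ * csum i L * B :=
            mul_nonneg (mul_nonneg hn0 (csum_nonneg _ _)) hB
          nlinarith [norm_nonneg (Ψ (e (g + Finsupp.single i f.2) * pr (fval e) L))]
        · rw [vanish_coord he Ψ h0 i L _ (by
            simp only [Finsupp.mem_support_iff, not_not] at hi
            simpa [hi] using hs), sub_zero] at hd
          rw [zero_add, mul_assoc]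
          exact mul_le_mul_of_nonneg_left hd hn0
      refine ((norm_sum_le _ _).trans (Finset.sum_le_sum hterm)).trans (le_trans ?_ hmono)
      rw [Finset.sum_add_distrib, ← Finset.sum_mul]
      have s1 : ∑ i ∈ f.1.support, (if i ∈ g.support then B else 0) ≤ (K + 1) * B := by
        rw [← Finset.sum_filter, Finset.sum_const, nsmul_eq_mul]
        refine mul_le_mul_of_nonneg_right (le_trans ?_ hc') hB
        exact_mod_cast Finset.card_le_card fun i hi => (Finset.mem_filter.mp hi).2
      have s2 := sum_mul_csum f.1.support (fun i => ‖f.1 i‖) 1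
        (fun b hb => sum_mul_le_one _ hL.1.1 hb) L hL.2
      have s3 : (L.length : ℝ) ≤ K := by exact_mod_cast hl'
      have s4 : (∑ i ∈ f.1.support, ‖f.1 i‖ * csum i L) * B ≤ K * B :=
        mul_le_mul_of_nonneg_right (by linarith) hB
      nlinarith

/-- Coefficient of the contraction at one coordinate. -/
noncomputable def ptc (s : ℤ) (i : ι) (f : Form ι) : 𝒜 :=
  algebraMap ℂ 𝒜 (if s + f.2 = 0 then f.1 i else 0)

/-- Pointwise integration by parts. -/
theorem ibp_point (Ψ : 𝒜 →ₗ[ℂ] ℂ) (h0 : ∀ g, g ≠ 0 → Ψ (e g) = 0) (K : ℕ) (B : ℝ) (hB0 : 0 ≤ B)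
    (hB : ∀ (g' : ι →₀ ℤ) (L' : List (Form ι)), Good L' → L'.length ≤ K →
      ‖Ψ (e g' * pr (fval e) L')‖ ≤ B)
    (g : ι →₀ ℤ) (i : ι) (hg : g i = 0) (s : ℤ) (hs : s ≠ 0) :
    ∀ (L L0 : List (Form ι)), Good L → Good L0 → L0.length + L.length ≤ K →
      ‖Ψ (e (g + Finsupp.single i s) * (pr (fval e) (L0.map (er i)) * pr (fval e) L)) -
        Ψ (e g * (pr (fval e) L0 * der (fval e) (ptc s i) L))‖ ≤
        csum i L * csum i (L0 ++ L) * B := by
  intro L
  induction L with
  | nil =>
    intro L0 _ _ _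
    rw [pr_nil, mul_one, vanish_coord he Ψ h0 i L0 _ (by simpa [hg] using hs)]
    simp [csum]
  | cons f L ih =>
    intro L0 hL hL0 hK
    rw [good_cons] at hL
    have hK' : L0.length + L.length + 1 ≤ K := by simpa [add_assoc] using hK
    have h1 := ih (L0 ++ [f]) hL.2 (good_append hL0 (good_cons.mpr ⟨hL.1, by simp [Good]⟩))
      (by simp; omega)
    have hc0 := csum_nonneg i L0
    have hc1 := csum_nonneg i L
    have hn0 := norm_nonneg (f.1 i)
    have h2 : ‖Ψ (e (g + Finsupp.single i (s + f.2)) *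
          (pr (fval e) (L0.map (er i)) * pr (fval e) L)) -
        (if s + f.2 = 0 then Ψ (e g * (pr (fval e) L0 * pr (fval e) L)) else 0)‖ ≤
        (csum i L0 + csum i L) * B := by
      split_ifs with hsf
      · have := erase_diff he i B L0 (Ψ.comp (LinearMap.mulRight ℂ (pr (fval e) L))) g hL0
          (fun g' L' hL' hl => by
            have := hB g' (L' ++ L) (good_append hL' hL.2) (by simp; omega)
            simpa [pr_append, mul_assoc] using this)
        simp only [LinearMap.comp_apply, LinearMap.mulRight_apply, mul_assoc] at this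
        rw [hsf, Finsupp.single_zero, add_zero, norm_sub_rev]
        refine this.trans ?_
        nlinarith
      · have := erase_diff he i B L
          (Ψ.comp (LinearMap.mulRight ℂ (pr (fval e) (L0.map (er i)))))
          (g + Finsupp.single i (s + f.2)) hL.2
          (fun g' L' hL' hl => by
            have := hB g' (L' ++ L0.map (er i)) (good_append hL' (good_er hL0 i))
              (by simp; omega)
            simpa [pr_append, mul_assoc] using this)
        simp only [LinearMap.comp_apply, LinearMap.mulRight_apply, mul_assoc] at this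
        rw [← pr_append (fval e) (L.map (er i)), ← List.map_append,
          vanish_coord he Ψ h0 i _ _ (by simpa [hg] using hsf), mul_comm (pr (fval e) L)] at this
        refine this.trans ?_
        nlinarith
    have e1 : Ψ (e (g + Finsupp.single i s) * (pr (fval e) (L0.map (er i)) * pr (fval e) (f :: L))) -
        Ψ (e g * (pr (fval e) L0 * der (fval e) (ptc s i) (f :: L))) =
        (Ψ (e (g + Finsupp.single i s) *
            (pr (fval e) ((L0 ++ [f]).map (er i)) * pr (fval e) L)) -
          Ψ (e g * (pr (fval e) (L0 ++ [f]) * der (fval e) (ptc s i) L))) +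
        f.1 i * (Ψ (e (g + Finsupp.single i (s + f.2)) *
          (pr (fval e) (L0.map (er i)) * pr (fval e) L)) -
        (if s + f.2 = 0 then Ψ (e g * (pr (fval e) L0 * pr (fval e) L)) else 0)) := by
      have a1 : Ψ (e (g + Finsupp.single i s) *
          (pr (fval e) (L0.map (er i)) * pr (fval e) (f :: L))) =
          Ψ (e (g + Finsupp.single i s) *
            (pr (fval e) ((L0 ++ [f]).map (er i)) * pr (fval e) L)) +
          f.1 i * Ψ (e (g + Finsupp.single i (s + f.2)) *
            (pr (fval e) (L0.map (er i)) * pr (fval e) L)) := by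
        rw [← smul_eq_mul (f.1 i), ← map_smul, ← map_add, Finsupp.single_add, ← add_assoc,
          he (g + Finsupp.single i s), pr_cons, fval_er e i f]
        congr 1
        simp only [List.map_append, List.map_cons, List.map_nil, pr_append, pr_cons, pr_nil,
          Algebra.smul_def]
        ring
      have a2 : Ψ (e g * (pr (fval e) L0 * der (fval e) (ptc s i) (f :: L))) =
          Ψ (e g * (pr (fval e) (L0 ++ [f]) * der (fval e) (ptc s i) L)) +
          f.1 i * (if s + f.2 = 0 then Ψ (e g * (pr (fval e) L0 * pr (fval e) L)) else 0) := by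
        simp only [der_cons, ptc, pr_append, pr_cons, pr_nil]
        split_ifs with hsf
        · rw [← smul_eq_mul (f.1 i), ← map_smul, ← map_add]
          congr 1
          simp only [Algebra.smul_def]
          ring
        · simp [mul_assoc]
      rw [a1, a2]; ring
    rw [e1]
    refine (norm_add_le _ _).trans ?_
    rw [norm_mul]
    have h3 := mul_le_mul_of_nonneg_left h2 hn0
    simp only [csum_append, csum_cons] at h1 ⊢
    have h4 : csum i ([] : List (Form ι)) = 0 := rfl
    rw [h4] at h1
    nlinarith [mul_nonneg (mul_nonneg hn0 hn0) hB0]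

/-- Bilinear pairing of two forms (zero unless the exponents are opposite). -/
noncomputable def pairing (f f' : Form ι) : ℂ :=
  if f.2 + f'.2 = 0 then ∑ i ∈ f.1.support, f.1 i * f'.1 i else 0

/-- Approximate integration by parts. -/
theorem ibp (Ψ : 𝒜 →ₗ[ℂ] ℂ) (h0 : ∀ g, g ≠ 0 → Ψ (e g) = 0) (h1 : ∀ g, ‖Ψ (e g)‖ ≤ 1)
    (K : ℕ) (g : ι →₀ ℤ) (f : Form ι) (hs : f.2 ≠ 0) (θ : ℝ) (hθ0 : 0 ≤ θ)
    (hθ : ∀ i, ‖f.1 i‖ ≤ θ) (L : List (Form ι)) (hL : Good L) (hK : L.length ≤ K) :
    ‖Ψ (e g * (fval e f * pr (fval e) L)) -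
      Ψ (e g * der (fval e) (fun f' => algebraMap ℂ 𝒜 (pairing f f')) L)‖ ≤
      2 * (K + 1) ^ 2 * (2 * K + 1) ^ K * θ := by
  set B : ℝ := (2 * K + 1 : ℝ) ^ K with hBdef
  have hB0 : 0 ≤ B := by positivity
  have hB := wick_bound he Ψ h0 h1 K
  have hder : ∀ (c : Form ι → ℂ) (ε : ℝ), (∀ f', nrm f'.1 ≤ 1 → ‖c f'‖ ≤ 1) → 0 ≤ ε →
      (∀ L' : List (Form ι), Good L' → L'.length < L.length → ‖Ψ (e g * pr (fval e) L')‖ ≤ ε) →
      ‖Ψ (e g * der (fval e) (fun f' => algebraMap ℂ 𝒜 (c f')) L)‖ ≤ L.length * ε := by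
    intro c ε hc hε hb
    have := der_bound (fval e) (fun f' => algebraMap ℂ 𝒜 (c f'))
      (fun f' => nrm f'.1 ≤ 1 ∧ f'.2 ≠ 0) (Ψ.comp (LinearMap.mulLeft ℂ (e g))).toAddMonoidHom
      L.length ε (fun b L' hb' hL' hl => by
        have h3 := hb L' hL' hl
        have h4 := hc b hb'.1
        simp only [LinearMap.toAddMonoidHom_coe, LinearMap.comp_apply, LinearMap.mulLeft_apply]
        rw [← Algebra.smul_def, mul_smul_comm, map_smul, norm_smul]
        nlinarith [norm_nonneg (c b), norm_nonneg (Ψ (e g * pr (fval e) L'))]) L [] hL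
        (by simp) (by simp)
    simpa using this
  have hsum : Ψ (e g * der (fval e) (fun f' => algebraMap ℂ 𝒜 (pairing f f')) L) =
      ∑ i ∈ f.1.support, f.1 i * Ψ (e g * der (fval e) (ptc f.2 i) L) := by
    have : (fun f' => algebraMap ℂ 𝒜 (pairing f f')) =
        fun f' => ∑ i ∈ f.1.support, algebraMap ℂ 𝒜 (f.1 i) * ptc f.2 i f' := by
      funext f'
      unfold pairing ptc
      split_ifs <;> simp
    rw [this, der_sum, Finset.mul_sum, map_sum]
    refine Finset.sum_congr rfl fun i _ => ?_
    rw [der_mul, ← Algebra.smul_def, mul_smul_comm, map_smul, smul_eq_mul]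
  have hpt : ∀ (i : ι) (f' : Form ι), nrm f'.1 ≤ 1 →
      ‖(if f.2 + f'.2 = 0 then f'.1 i else 0)‖ ≤ 1 := by
    intro i f' hf'
    split_ifs
    · exact norm_le_one_of_nrm hf' i
    · simp
  by_cases hc : (f :: L).length < g.support.card
  · rw [← pr_cons, vanish_card he Ψ h0 _ _ hc, hsum, Finset.sum_eq_zero]
    · simp; positivity
    · intro i _
      have := hder _ 0 (hpt i) le_rfl (fun L' _ hl => by
        rw [vanish_card he Ψ h0 L' g (by simp at hc; omega), norm_zero])
      rw [mul_zero, norm_le_zero_iff] at this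
      unfold ptc
      rw [this, mul_zero]
  have hc' : (g.support.card : ℝ) ≤ K + 1 := by
    have : g.support.card ≤ K + 1 := by simp at hc; omega
    exact_mod_cast this
  have s3 : (L.length : ℝ) ≤ K := by exact_mod_cast hK
  rw [T_cons he, hsum, ← Finset.sum_sub_distrib]
  have hterm : ∀ i ∈ f.1.support,
      ‖f.1 i * Ψ (e (g + Finsupp.single i f.2) * pr (fval e) L) -
        f.1 i * Ψ (e g * der (fval e) (ptc f.2 i) L)‖ ≤
        (if i ∈ g.support then θ * ((K + 1) * B) else 0) + θ * B * (csum i L * csum i L) := by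
    intro i _
    rw [← mul_sub, norm_mul]
    have hc1 := csum_nonneg i L
    split_ifs with hi
    · have a1 := hB (g + Finsupp.single i f.2) L hL hK
      have a2 := hder _ B (hpt i) hB0 (fun L' hL' hl => hB g L' hL' (by omega))
      have a3 : ‖Ψ (e (g + Finsupp.single i f.2) * pr (fval e) L) -
          Ψ (e g * der (fval e) (ptc f.2 i) L)‖ ≤ (K + 1) * B := by
        refine (norm_sub_le _ _).trans ?_
        unfold ptc
        nlinarith
      have a4 := mul_le_mul (hθ i) a3 (norm_nonneg _) hθ0
      have a5 : 0 ≤ θ * B * (csum i L * csum i L) := by positivity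
      linarith
    · have a1 := ibp_point he Ψ h0 K B hB0 hB g i
        (by simpa [Finsupp.mem_support_iff] using hi) f.2 hs L [] hL (by simp [Good])
        (by simpa using hK)
      simp only [List.map_nil, pr_nil, one_mul, List.nil_append] at a1
      have a4 := mul_le_mul (hθ i) a1 (norm_nonneg _) hθ0
      nlinarith
  refine ((norm_sum_le _ _).trans (Finset.sum_le_sum hterm)).trans ?_
  rw [Finset.sum_add_distrib, ← Finset.mul_sum]
  have s1 : ∑ i ∈ f.1.support, (if i ∈ g.support then θ * ((K + 1) * B) else 0) ≤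
      (K + 1) * (θ * ((K + 1) * B)) := by
    rw [← Finset.sum_filter, Finset.sum_const, nsmul_eq_mul]
    refine mul_le_mul_of_nonneg_right (le_trans ?_ hc') (by positivity)
    exact_mod_cast Finset.card_le_card fun i hi => (Finset.mem_filter.mp hi).2
  have s2 := sum_csum_sq f.1.support L hL
  have s4 : (L.length : ℝ) * L.length ≤ (K + 1) ^ 2 := by
    nlinarith [(Nat.cast_nonneg L.length : (0 : ℝ) ≤ L.length)]
  have s5 := mul_le_mul_of_nonneg_left (s2.trans s4) (mul_nonneg hθ0 hB0)
  nlinarith

end Wick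

end Pool.Agent.Lib.MP_695abf_an
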